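import Pool.Agent.Helper99.RG.M_SYS
import Pool.Agent.Helper68.LM.Asm

set_option autoImplicit false

open MeasureTheory Set Filter Topology
open scoped ENNReal RealInnerProductSpace

namespace Pool.Agent.Helper99.RG

open Pool.Agent.Helper68.LM (Pl BB Bd Av HL ft fm DQ aBBC)
open Pool.Agent.Helper20.RG

theorem box_cmp (hPT : StPT) (g : Pl → ℝ) (hg : BB g) (hg0 : ∀ x, 0 ≤ g x) (ρ : ℝ) (hρ : 0 < ρ) (y y' : Pl)
    (h0 : |y 0 - y' 0| ≤ ρ / 2) (h1 : |y 1 - y' 1| ≤ ρ / 2) :
    Av bx ρ g y ≤ 4 * Av bx (2 * ρ) g y' := by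
  obtain ⟨hSm, hSv⟩ := hPT.2.2.2.2.2.2.2 0 (1 / 2) (by norm_num)
  obtain ⟨hgm, K, hK, -⟩ := hg
  unfold Av bx
  rw [← integral_indicator hSm, ← integral_indicator hSm]
  set h : Pl → ℝ := (Sq 0 (1 / 2)).indicator (fun w => g (y - ρ • w)) with hh
  have e1 := Measure.integral_comp_smul (volume : Measure Pl) h 2
  rw [finrank_euclideanSpace_fin] at e1
  have e2 : ∫ w, h w = 4 * ∫ w, h ((2 : ℝ) • w) := by
    rw [e1]
    norm_num
    ring
  set a : Pl := (1 / (2 * ρ)) • (y - y') with ha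
  have e3 : ∫ w, h ((2 : ℝ) • w) = ∫ w, h ((2 : ℝ) • (w + a)) :=
    (integral_add_right_eq_self (fun w => h ((2 : ℝ) • w)) a).symm
  rw [e2, e3]
  apply mul_le_mul_of_nonneg_left _ (by norm_num)
  apply integral_mono_of_nonneg
  · exact Filter.Eventually.of_forall (fun w => indicator_nonneg (fun _ _ => hg0 _) _)
  · rw [integrable_indicator_iff hSm]
    refine Measure.integrableOn_of_bounded (M := K) (by rw [hSv]; exact ENNReal.ofReal_ne_top) ?_ ?_
    · exact (hgm.comp (by fun_prop)).aestronglyMeasurable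
    · exact Filter.Eventually.of_forall (fun w => by rw [Real.norm_eq_abs]; exact hK _)
  · refine Filter.Eventually.of_forall (fun w => ?_)
    dsimp only
    rw [hh]
    by_cases hw : (2 : ℝ) • (w + a) ∈ Sq (0 : Pl) (1 / 2)
    · have hw' : w ∈ Sq (0 : Pl) (1 / 2) := by
        unfold Sq at hw ⊢
        rw [Set.mem_ofPred_eq] at hw ⊢
        have f0 : ((2 : ℝ) • (w + a)) 0 = 2 * (w 0 + (1 / (2 * ρ)) * (y 0 - y' 0)) := by
          simp [ha]
          ring
        have f1 : ((2 : ℝ) • (w + a)) 1 = 2 * (w 1 + (1 / (2 * ρ)) * (y 1 - y' 1)) := by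
          simp [ha]
          ring
        rw [f0, f1] at hw
        have z0 : (0 : Pl) 0 = 0 := rfl
        have z1 : (0 : Pl) 1 = 0 := rfl
        rw [z0, z1, sub_zero, sub_zero] at hw ⊢
        have key : ∀ d v : ℝ, |d| ≤ ρ / 2 → |2 * (v + 1 / (2 * ρ) * d)| ≤ 1 / 2 → |v| ≤ 1 / 2 := by
          intro d v hd hv
          have g1 : |1 / (2 * ρ) * d| ≤ 1 / 4 := by
            rw [abs_mul, abs_of_pos (by positivity : (0 : ℝ) < 1 / (2 * ρ))]
            calc 1 / (2 * ρ) * |d| ≤ 1 / (2 * ρ) * (ρ / 2) := mul_le_mul_of_nonneg_left hd (by positivity)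
              _ = 1 / 4 := by field_simp; norm_num
          have g2 := abs_le.1 g1
          have g3 := abs_le.1 hv
          rw [abs_le]
          constructor <;> linarith
        exact ⟨key _ _ h0 hw.1, key _ _ h1 hw.2⟩
      rw [indicator_of_mem hw, indicator_of_mem hw']
      apply le_of_eq
      congr 1
      rw [ha, smul_add, smul_add, smul_smul, smul_smul, smul_smul]
      have : ρ * (2 * (1 / (2 * ρ))) = 1 := by field_simp
      rw [← mul_assoc] at this
      rw [show ρ * 2 * (1 / (2 * ρ)) = 1 by exact this]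
      rw [one_smul, mul_comm ρ 2]
      abel
    · rw [indicator_of_notMem hw]
      exact indicator_nonneg (fun _ _ => hg0 _) _

theorem graph_cont {φ τ : ℝ → ℝ} (hG : Graph φ τ) : Continuous φ := by
  have h : LipschitzWith 1 φ := by
    apply LipschitzWith.of_dist_le_mul
    intro x y
    rw [NNReal.coe_one, one_mul, Real.dist_eq, Real.dist_eq]
    rcases le_total x y with hxy | hxy
    · have h1 := hG.2 x y hxy
      have a1 := abs_le.1 (hG.1 x)
      have a2 := abs_le.1 (hG.1 y)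
      rw [abs_sub_comm, abs_sub_comm x y, abs_of_nonneg (by linarith : 0 ≤ y - x), abs_le]
      constructor <;> nlinarith
    · have h1 := hG.2 y x hxy
      have a1 := abs_le.1 (hG.1 x)
      have a2 := abs_le.1 (hG.1 y)
      rw [abs_of_nonneg (by linarith : 0 ≤ x - y), abs_le]
      constructor <;> nlinarith
  exact h.continuous

theorem graph_tangent {φ τ : ℝ → ℝ} (hG : Graph φ τ) (t t₀ : ℝ) :
    |φ t - φ t₀ - τ t₀ * (t - t₀)| ≤ |t - t₀| * |τ t - τ t₀| := by
  have hτ := graph_mono hG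
  rcases le_total t₀ t with h | h
  · have h1 := hG.2 t₀ t h
    have h2 := hτ h
    rw [abs_of_nonneg (by linarith : 0 ≤ t - t₀), abs_of_nonneg (by linarith : 0 ≤ τ t - τ t₀), abs_le]
    constructor <;> nlinarith
  · have h1 := hG.2 t t₀ h
    have h2 := hτ h
    rw [abs_sub_comm t t₀, abs_sub_comm (τ t), abs_of_nonneg (by linarith : 0 ≤ t₀ - t),
      abs_of_nonneg (by linarith : 0 ≤ τ t₀ - τ t), abs_le]
    constructor <;> nlinarith

theorem trn_bound {φ τ : ℝ → ℝ} (hG : Graph φ τ) (u j : ℕ) (hj : j < 2 ^ u) (t : ℝ)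
    (ht : t ∈ Icc ((j : ℝ) / 2 ^ u) (((j : ℝ) + 1) / 2 ^ u)) : |τ t - τ (tm u j)| ≤ trn τ u j := by
  have hτ := graph_mono hG
  have hu : (0 : ℝ) < 2 ^ u := by positivity
  have hj1 : (j : ℝ) + 1 ≤ 2 ^ u := by exact_mod_cast hj
  have hj0 : (0 : ℝ) ≤ j := by positivity
  have key : ∀ r ∈ Icc ((j : ℝ) / 2 ^ u) (((j : ℝ) + 1) / 2 ^ u),
      τ (max 0 (((j : ℝ) - 1) / 2 ^ u)) ≤ τ r ∧ τ r ≤ τ (min 1 (((j : ℝ) + 2) / 2 ^ u)) := by
    intro r hr
    constructor
    · apply hτ
      apply max_le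
      · exact le_trans (by positivity) hr.1
      · refine le_trans ?_ hr.1
        apply div_le_div_of_nonneg_right _ hu.le
        linarith
    · apply hτ
      apply le_min
      · refine hr.2.trans ?_
        rw [div_le_one hu]
        exact hj1
      · refine hr.2.trans ?_
        apply div_le_div_of_nonneg_right _ hu.le
        linarith
  have k1 := key t ht
  have k2 := key (tm u j) (by
    unfold tm
    constructor <;> apply div_le_div_of_nonneg_right _ hu.le <;> linarith)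
  unfold trn
  rw [abs_le]
  constructor <;> linarith [k1.1, k1.2, k2.1, k2.2]

theorem hDO1 (hPT : StPT) (hMEA : StMEA) (hMM : StMM) : StDO1 := by
  intro φ τ A σ c hG hGap hA hσ u hu g hg hg0 k x
  have hu0 : (0 : ℝ) < 2 ^ u := by positivity
  have hφ := graph_cont hG
  have hk : (0 : ℝ) < (2 : ℝ) ^ k := by positivity
  -- the functions
  set f : ℝ → ℝ := fun t => Av bx ((2 : ℝ) ^ (k - (mm τ u ⌊t * 2 ^ u⌋₊ : ℤ))) g
        (x - (2 : ℝ) ^ k • (c + pt t (φ t))) with hf
  set fj : ℕ → ℝ → ℝ := fun j t => Av bx ((2 : ℝ) ^ (k - (mm τ u j : ℤ))) g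
        (x - (2 : ℝ) ^ k • (c + pt t (φ t))) with hfj
  set G : ℕ → Pl → ℝ := fun j => Av bx (2 * (2 : ℝ) ^ (k - (mm τ u j : ℤ))) g with hGdef
  set Fj : ℕ → ℝ → ℝ := fun j t => G j (x - (2 : ℝ) ^ k • (ce c φ u j) -
    ((2 : ℝ) ^ k * (t - tm u j)) • E (τ (tm u j))) with hFj
  have hBB : ∀ r : ℝ, 0 ≤ r → BB (Av bx r g) := fun r hr => aBBC.2.2.1 bx 1 1 r g hMEA.1.1 hr hg
  have hAv0 : ∀ (r : ℝ) (y : Pl), 0 ≤ Av bx r g y := fun r y => integral_nonneg (fun w => hg0 _)
  have hpath : Continuous (fun t => x - (2 : ℝ) ^ k • (c + pt t (φ t))) := by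
    have h1 : Continuous (fun t => pt t (φ t)) := hPT.2.2.2.2.1.comp (continuous_id.prodMk hφ)
    fun_prop
  have hfj_int : ∀ j a b, IntegrableOn (fj j) (Ico a b) := by
    intro j a b
    obtain ⟨hm, K, hK, -⟩ := hBB ((2 : ℝ) ^ (k - (mm τ u j : ℤ))) (by positivity)
    refine Measure.integrableOn_of_bounded (M := K) (by rw [Real.volume_Ico]; exact ENNReal.ofReal_ne_top) ?_ ?_
    · exact (hm.comp hpath.measurable).aestronglyMeasurable
    · exact Filter.Eventually.of_forall (fun w => by rw [Real.norm_eq_abs]; exact hK _)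
  have hFj_int : ∀ j a b, IntegrableOn (Fj j) (Ico a b) := by
    intro j a b
    obtain ⟨hm, K, hK, -⟩ := hBB (2 * (2 : ℝ) ^ (k - (mm τ u j : ℤ))) (by positivity)
    refine Measure.integrableOn_of_bounded (M := K) (by rw [Real.volume_Ico]; exact ENNReal.ofReal_ne_top) ?_ ?_
    · have h1 : Continuous (fun t => x - (2 : ℝ) ^ k • (ce c φ u j) -
        ((2 : ℝ) ^ k * (t - tm u j)) • E (τ (tm u j))) := by fun_prop
      exact (hm.comp h1.measurable).aestronglyMeasurable
    · exact Filter.Eventually.of_forall (fun w => by rw [Real.norm_eq_abs]; exact hK _)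
  -- the intervals
  set J : ℕ → Set ℝ := fun j => Ico ((j : ℝ) / 2 ^ u) (((j : ℝ) + 1) / 2 ^ u) with hJ
  have hfl : ∀ j, ∀ t ∈ J j, ⌊t * 2 ^ u⌋₊ = j := by
    intro j t ht
    have h1 : (j : ℝ) ≤ t * 2 ^ u := by
      have := ht.1
      rwa [div_le_iff₀ hu0] at this
    have h2 : t * 2 ^ u < j + 1 := by
      have := ht.2
      rwa [lt_div_iff₀ hu0] at this
    exact (Nat.floor_eq_iff ((Nat.cast_nonneg j).trans h1)).2 ⟨h1, h2⟩
  have hJU : Ico (0 : ℝ) 1 = ⋃ j ∈ Finset.range (2 ^ u), J j := by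
    ext t
    rw [mem_iUnion₂]
    constructor
    · intro ht
      refine ⟨⌊t * 2 ^ u⌋₊, ?_, ?_⟩
      · rw [Finset.mem_range, Nat.floor_lt (by have := ht.1; positivity)]
        push_cast
        have := ht.2
        nlinarith
      · refine ⟨?_, ?_⟩
        · rw [div_le_iff₀ hu0]
          exact Nat.floor_le (by have := ht.1; positivity)
        · rw [lt_div_iff₀ hu0]
          exact Nat.lt_floor_add_one _
    · rintro ⟨j, hj, ht⟩
      rw [Finset.mem_range] at hj
      have hj1 : (j : ℝ) + 1 ≤ 2 ^ u := by exact_mod_cast hj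
      refine ⟨le_trans (by positivity) ht.1, lt_of_lt_of_le ht.2 ?_⟩
      rw [div_le_one hu0]
      exact hj1
  have hdis : Set.Pairwise (↑(Finset.range (2 ^ u))) (Function.onFun Disjoint J) := by
    intro i _ j _ hij
    rw [Function.onFun, Set.disjoint_left]
    intro t hi hj
    exact hij ((hfl i t hi).symm.trans (hfl j t hj))
  have hfint : ∀ j ∈ Finset.range (2 ^ u), IntegrableOn f (J j) := by
    intro j _
    refine (hfj_int j _ _).congr_fun ?_ measurableSet_Ico
    intro t ht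
    simp only [hf, hfj]
    rw [hfl j t ht]
  have hstep : ∀ j ∈ Finset.range (2 ^ u), ∫ t in J j, f t ≤
      4 * ((1 / (2 : ℝ) ^ u) * Y (τ (tm u j)) (ce c φ u j) (mm τ u j) (1 / (2 : ℝ) ^ u) k g x) := by
    intro j hj
    rw [Finset.mem_range] at hj
    have hρ : (0 : ℝ) < (2 : ℝ) ^ (k - (mm τ u j : ℤ)) := by positivity
    -- pointwise comparison
    have h1 : ∫ t in J j, f t ≤ ∫ t in J j, 4 * Fj j t := by
      apply setIntegral_mono_on (hfint j (Finset.mem_range.2 hj)) ((hFj_int j _ _).const_mul 4) measurableSet_Ico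
      intro t ht
      simp only [hf]
      rw [hfl j t ht]
      apply box_cmp hPT g hg hg0 _ hρ
      · have e0 : (x - (2 : ℝ) ^ k • (c + pt t (φ t))) 0 - (x - (2 : ℝ) ^ k • (ce c φ u j) -
            ((2 : ℝ) ^ k * (t - tm u j)) • E (τ (tm u j))) 0 = 0 := by
          have p1 : (pt t (φ t)) 0 = t := (hPT.1 _ _).1
          have p2 : (pt (tm u j) (φ (tm u j))) 0 = tm u j := (hPT.1 _ _).1
          have p3 : (E (τ (tm u j))) 0 = 1 := (hPT.1 _ _).1
          simp only [ce, PiLp.sub_apply, PiLp.smul_apply, PiLp.add_apply, smul_eq_mul, p1, p2, p3]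
          ring
        rw [e0, abs_zero]
        positivity
      · have e1 : (x - (2 : ℝ) ^ k • (c + pt t (φ t))) 1 - (x - (2 : ℝ) ^ k • (ce c φ u j) -
            ((2 : ℝ) ^ k * (t - tm u j)) • E (τ (tm u j))) 1 =
            -((2 : ℝ) ^ k * (φ t - φ (tm u j) - τ (tm u j) * (t - tm u j))) := by
          have p1 : (pt t (φ t)) 1 = φ t := (hPT.1 _ _).2
          have p2 : (pt (tm u j) (φ (tm u j))) 1 = φ (tm u j) := (hPT.1 _ _).2
          have p3 : (E (τ (tm u j))) 1 = τ (tm u j) := (hPT.1 _ _).2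
          simp only [ce, PiLp.sub_apply, PiLp.smul_apply, PiLp.add_apply, smul_eq_mul, p1, p2, p3]
          ring
        rw [e1, abs_neg, abs_mul, abs_of_pos hk]
        obtain ⟨-, -, h3, -⟩ := hMM φ τ A σ hG hGap hA hσ u j hu hj
        have g1 := graph_tangent hG t (tm u j)
        have g2 := trn_bound hG u j hj t ⟨ht.1, ht.2.le⟩
        have g3 : |t - tm u j| ≤ 1 / (2 * 2 ^ u) := by
          unfold tm
          have h4 := ht.1
          have h5 := ht.2
          have e4 : 1 / (2 * (2 : ℝ) ^ u) = (1 / 2) / 2 ^ u := by field_simp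
          rw [e4, abs_le]
          constructor
          · have : -((1 : ℝ) / 2 / 2 ^ u) = (j : ℝ) / 2 ^ u - ((j : ℝ) + 1 / 2) / 2 ^ u := by ring
            rw [this]; linarith
          · have : ((1 : ℝ) / 2 / 2 ^ u) = ((j : ℝ) + 1) / 2 ^ u - ((j : ℝ) + 1 / 2) / 2 ^ u := by ring
            rw [this]; linarith
        have hmm : (0 : ℝ) < (2 : ℝ) ^ (mm τ u j) := by positivity
        have g4 : |t - tm u j| * |τ t - τ (tm u j)| ≤ 1 / (2 * 2 ^ u) * trn τ u j :=
          mul_le_mul g3 g2 (abs_nonneg _) (by positivity)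
        have g5 : 1 / (2 * 2 ^ u) * trn τ u j ≤ 1 / (2 * (2 : ℝ) ^ (mm τ u j)) := by
          rw [div_mul_eq_mul_div, one_mul, div_le_div_iff₀ (by positivity) (by positivity)]
          nlinarith
        have g6 : (2 : ℝ) ^ (k - (mm τ u j : ℤ)) / 2 = (2 : ℝ) ^ k * (1 / (2 * (2 : ℝ) ^ (mm τ u j))) := by
          rw [zpow_sub₀ (by norm_num), zpow_natCast]
          field_simp
        rw [g6]
        exact mul_le_mul_of_nonneg_left (g1.trans (g4.trans g5)) hk.le
    refine h1.trans (le_of_eq ?_)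
    rw [integral_const_mul]
    congr 1
    -- change of variables
    have h2 : ∫ t in J j, Fj j t = ∫ t in ((j : ℝ) / 2 ^ u)..(((j : ℝ) + 1) / 2 ^ u), Fj j t := by
      rw [intervalIntegral.integral_of_le (by
        apply div_le_div_of_nonneg_right _ hu0.le
        linarith), integral_Ioc_eq_integral_Ioo, ← integral_Ico_eq_integral_Ioo]
    have h3 := intervalIntegral.integral_comp_mul_add (a := (-(1 / 2) : ℝ)) (b := 1 / 2) (f := Fj j)
      (c := 1 / (2 : ℝ) ^ u) (by positivity) (tm u j)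
    have e1 : 1 / (2 : ℝ) ^ u * (-(1 / 2)) + tm u j = (j : ℝ) / 2 ^ u := by unfold tm; ring
    have e2 : 1 / (2 : ℝ) ^ u * (1 / 2) + tm u j = ((j : ℝ) + 1) / 2 ^ u := by unfold tm; ring
    rw [e1, e2] at h3
    have h4 : ∫ t in J j, Fj j t = 1 / (2 : ℝ) ^ u * ∫ r in (-(1 / 2) : ℝ)..(1 / 2), Fj j (1 / (2 : ℝ) ^ u * r + tm u j) := by
      rw [h3, h2, smul_eq_mul, ← mul_assoc, mul_inv_cancel₀ (by positivity), one_mul]
    rw [h4]
    congr 1
    -- the segment measure
    have hGm : Measurable (G j) := (hBB (2 * (2 : ℝ) ^ (k - (mm τ u j : ℤ))) (by positivity)).1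
    unfold Y
    rw [intervalIntegral.integral_of_le (by norm_num), ← integral_Icc_eq_integral_Ioc]
    have h5 : Av (sg (τ (tm u j))) ((2 : ℝ) ^ k * (1 / (2 : ℝ) ^ u)) (G j) (x - (2 : ℝ) ^ k • ce c φ u j) =
        ∫ r in Icc (-(1 / 2) : ℝ) (1 / 2), G j (x - (2 : ℝ) ^ k • ce c φ u j -
          ((2 : ℝ) ^ k * (1 / (2 : ℝ) ^ u)) • (r • E (τ (tm u j)))) := by
      unfold Av sg
      rw [integral_map]
      · exact (by fun_prop : Continuous (fun t : ℝ => t • E (τ (tm u j)))).measurable.aemeasurable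
      · exact (hGm.comp (by fun_prop)).aestronglyMeasurable
    rw [h5]
    apply setIntegral_congr_fun measurableSet_Icc
    intro r _
    simp only [hFj]
    congr 2
    rw [smul_smul]
    congr 1
    ring
  calc ∫ t in Icc (0 : ℝ) 1, f t = ∫ t in Ico (0 : ℝ) 1, f t := integral_Icc_eq_integral_Ico
    _ = ∑ j ∈ Finset.range (2 ^ u), ∫ t in J j, f t := by
        rw [hJU, integral_biUnion_finset _ (fun j _ => measurableSet_Ico) hdis hfint]
    _ ≤ ∑ j ∈ Finset.range (2 ^ u), 4 * ((1 / (2 : ℝ) ^ u) *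
        Y (τ (tm u j)) (ce c φ u j) (mm τ u j) (1 / (2 : ℝ) ^ u) k g x) := Finset.sum_le_sum hstep
    _ = 4 * Sa c φ τ u k g x := by
        unfold Sa
        rw [← Finset.mul_sum, ← Finset.mul_sum]

end Pool.Agent.Helper99.RG
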