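import Pool.Agent.Helper20.RG.St1

set_option autoImplicit false

open MeasureTheory Set Filter Topology
open scoped ENNReal RealInnerProductSpace

namespace Pool.Agent.Helper99.RG

open Pool.Agent.Helper68.LM (Pl BB Bd Av HL ft fm DQ)
open Pool.Agent.Helper20.RG

theorem one_le_two_pow_real (u : ℕ) : (1 : ℝ) ≤ (2 : ℝ) ^ u := one_le_pow₀ (by norm_num)

theorem hE2 (hMB : StMB) (hU1 : StU1) (hOCT : StOCT) : StE2 := by
  intro C₀ hC₀
  obtain ⟨C₁, hC₁, h1⟩ := hMB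
  obtain ⟨C₂, hC₂, h2⟩ := hU1 C₀ hC₀
  refine ⟨4 * C₂ + 16 * C₁, by positivity, ?_⟩
  intro u s c m m' R K A σ hS W ξ hξ
  have hu : (0 : ℝ) < (2 : ℝ) ^ u := by positivity
  have hW : (0 : ℝ) < (2 : ℝ) ^ W := by positivity
  have hu1 := one_le_two_pow_real u
  have hW1 := one_le_two_pow_real W
  constructor
  · have a1 := h2 u s c m m' R K A σ hS ξ (1 / (2 : ℝ) ^ u) hξ (by positivity)
    have a2 := h2 u s c m m' R K A σ hS ξ ((2 : ℝ) ^ W) hξ hW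
    have hsq : (1 : ℝ) ≤ Real.sqrt ((2 : ℝ) ^ u) := by
      rw [Real.one_le_sqrt]; exact hu1
    have hsW : (1 : ℝ) ≤ Real.sqrt ((2 : ℝ) ^ W) := by
      rw [Real.one_le_sqrt]; exact hW1
    have e1 : 1 / Real.sqrt (1 / (2 : ℝ) ^ u) = Real.sqrt ((2 : ℝ) ^ u) := by
      rw [one_div ((2 : ℝ) ^ u), Real.sqrt_inv, one_div, inv_inv]
    have e2 : 1 / Real.sqrt ((2 : ℝ) ^ W) ≤ 1 := by
      rw [div_le_one (by linarith)]; exact hsW
    rw [e1] at a1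
    calc ∑ j ∈ Finset.range (2 ^ u), ‖Zh (s j) (c j) (m j) (m' j) (1 / (2 : ℝ) ^ u) ξ -
          Zh (s j) (c j) (m j) (m' j) ((2 : ℝ) ^ W) ξ‖
        ≤ ∑ j ∈ Finset.range (2 ^ u), (‖Zh (s j) (c j) (m j) (m' j) (1 / (2 : ℝ) ^ u) ξ‖ +
          ‖Zh (s j) (c j) (m j) (m' j) ((2 : ℝ) ^ W) ξ‖) := Finset.sum_le_sum (fun j _ => norm_sub_le _ _)
      _ ≤ C₂ * (1 + Real.sqrt ((2 : ℝ) ^ u)) + C₂ * (1 + 1 / Real.sqrt ((2 : ℝ) ^ W)) := by
          rw [Finset.sum_add_distrib]; exact add_le_add a1 a2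
      _ ≤ C₂ * (4 * Real.sqrt ((2 : ℝ) ^ u)) := by
          rw [← mul_add]
          apply mul_le_mul_of_nonneg_left _ hC₂.le
          linarith
      _ ≤ (4 * C₂ + 16 * C₁) * Real.sqrt ((2 : ℝ) ^ u) := by
          have : 0 ≤ C₁ * Real.sqrt ((2 : ℝ) ^ u) := by positivity
          linarith
  · have hj : ∀ j ∈ Finset.range (2 ^ u), ∑' k : ℤ,
        ‖Zh (s j) (c j) (m j) (m' j) (1 / (2 : ℝ) ^ u) ((2 : ℝ) ^ k • ξ) -
          Zh (s j) (c j) (m j) (m' j) ((2 : ℝ) ^ W) ((2 : ℝ) ^ k • ξ)‖ₑ ≤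
        ENNReal.ofReal (16 * C₁ * (W + u + 1)) := by
      intro j hj
      rw [Finset.mem_range] at hj
      have hs := hS.slope j hj
      have hm := (hS.mm j hj).1
      set b : ℝ := |⟪E (s j), ξ⟫| with hb
      set D : ℤ → ℂ := fun k => Zh (s j) (c j) (m j) (m' j) (1 / (2 : ℝ) ^ u) ((2 : ℝ) ^ k • ξ) -
          Zh (s j) (c j) (m j) (m' j) ((2 : ℝ) ^ W) ((2 : ℝ) ^ k • ξ) with hD
      have hin : ∀ k : ℤ, |⟪E (s j), (2 : ℝ) ^ k • ξ⟫| = (2 : ℝ) ^ k * b := by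
        intro k
        rw [real_inner_smul_right, abs_mul, abs_of_pos (by positivity : (0 : ℝ) < (2 : ℝ) ^ k)]
      have g5 : ∀ k : ℤ, ‖D k‖ ≤ C₁ * ((2 : ℝ) ^ W * ((2 : ℝ) ^ k * b)) := by
        intro k
        obtain ⟨-, -, -, -, h⟩ := h1 (s j) (c j) (m j) (m' j) (1 / (2 : ℝ) ^ u) ((2 : ℝ) ^ k • ξ) hs hm
          (by positivity)
        have h3 := h ((2 : ℝ) ^ W) (by
          calc 1 / (2 : ℝ) ^ u ≤ 1 := by rw [div_le_one hu]; exact hu1
            _ ≤ _ := hW1)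
        rw [hin] at h3
        exact h3
      have g1 : ∀ k : ℤ, ‖D k‖ ≤ 2 * C₁ := by
        intro k
        obtain ⟨ha, -⟩ := h1 (s j) (c j) (m j) (m' j) (1 / (2 : ℝ) ^ u) ((2 : ℝ) ^ k • ξ) hs hm (by positivity)
        obtain ⟨hb', -⟩ := h1 (s j) (c j) (m j) (m' j) ((2 : ℝ) ^ W) ((2 : ℝ) ^ k • ξ) hs hm hW
        calc ‖D k‖ ≤ _ := norm_sub_le _ _
          _ ≤ C₁ + C₁ := add_le_add ha hb'
          _ = 2 * C₁ := by ring
      have g4 : ∀ k : ℤ, 0 < b → ‖D k‖ ≤ 2 * C₁ * ((2 : ℝ) ^ u / ((2 : ℝ) ^ k * b)) := by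
        intro k hb0
        have hkb : 0 < (2 : ℝ) ^ k * b := by positivity
        obtain ⟨-, -, -, ha, -⟩ := h1 (s j) (c j) (m j) (m' j) (1 / (2 : ℝ) ^ u) ((2 : ℝ) ^ k • ξ) hs hm
          (by positivity)
        obtain ⟨-, -, -, hb', -⟩ := h1 (s j) (c j) (m j) (m' j) ((2 : ℝ) ^ W) ((2 : ℝ) ^ k • ξ) hs hm hW
        rw [hin] at ha hb'
        have i1 : ‖Zh (s j) (c j) (m j) (m' j) (1 / (2 : ℝ) ^ u) ((2 : ℝ) ^ k • ξ)‖ ≤
            C₁ * ((2 : ℝ) ^ u / ((2 : ℝ) ^ k * b)) := by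
          rw [← mul_div_assoc, le_div_iff₀ hkb]
          have : ‖Zh (s j) (c j) (m j) (m' j) (1 / (2 : ℝ) ^ u) ((2 : ℝ) ^ k • ξ)‖ * ((2 : ℝ) ^ k * b) =
            (2 : ℝ) ^ u * (‖Zh (s j) (c j) (m j) (m' j) (1 / (2 : ℝ) ^ u) ((2 : ℝ) ^ k • ξ)‖ *
              (1 / (2 : ℝ) ^ u * ((2 : ℝ) ^ k * b))) := by
            field_simp
          rw [this, mul_comm C₁]
          exact mul_le_mul_of_nonneg_left ha hu.le
        have i2 : ‖Zh (s j) (c j) (m j) (m' j) ((2 : ℝ) ^ W) ((2 : ℝ) ^ k • ξ)‖ ≤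
            C₁ * ((2 : ℝ) ^ u / ((2 : ℝ) ^ k * b)) := by
          rw [← mul_div_assoc, le_div_iff₀ hkb]
          have h0 : 0 ≤ ‖Zh (s j) (c j) (m j) (m' j) ((2 : ℝ) ^ W) ((2 : ℝ) ^ k • ξ)‖ * ((2 : ℝ) ^ k * b) := by
            positivity
          calc ‖Zh (s j) (c j) (m j) (m' j) ((2 : ℝ) ^ W) ((2 : ℝ) ^ k • ξ)‖ * ((2 : ℝ) ^ k * b)
              ≤ (2 : ℝ) ^ W * (‖Zh (s j) (c j) (m j) (m' j) ((2 : ℝ) ^ W) ((2 : ℝ) ^ k • ξ)‖ *
                ((2 : ℝ) ^ k * b)) := le_mul_of_one_le_left h0 hW1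
            _ = ‖Zh (s j) (c j) (m j) (m' j) ((2 : ℝ) ^ W) ((2 : ℝ) ^ k • ξ)‖ *
                ((2 : ℝ) ^ W * ((2 : ℝ) ^ k * b)) := by ring
            _ ≤ C₁ := hb'
            _ ≤ C₁ * (2 : ℝ) ^ u := le_mul_of_one_le_right (by linarith) hu1
        calc ‖D k‖ ≤ _ := norm_sub_le _ _
          _ ≤ C₁ * ((2 : ℝ) ^ u / ((2 : ℝ) ^ k * b)) + C₁ * ((2 : ℝ) ^ u / ((2 : ℝ) ^ k * b)) := add_le_add i1 i2
          _ = _ := by ring
      change ∑' k : ℤ, ‖D k‖ₑ ≤ _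
      rcases eq_or_lt_of_le (abs_nonneg (⟪E (s j), ξ⟫ : ℝ)) with hb0 | hb0
      · have : ∀ k, ‖D k‖ₑ = 0 := by
          intro k
          have h3 := g5 k
          rw [hb, ← hb0, mul_zero, mul_zero, mul_zero] at h3
          have h4 : D k = 0 := norm_le_zero_iff.1 h3
          rw [h4, enorm_zero]
        simp only [this, tsum_zero]
        exact zero_le
      · have h3 := hOCT (fun k => ‖D k‖ₑ) b (2 * C₁) (-(W : ℤ)) (u : ℤ) hb0 (by positivity) (by omega)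
          (fun k => by
            rw [← ofReal_norm]
            exact ENNReal.ofReal_le_ofReal (g1 k))
          (fun k _ => by
            rw [← ofReal_norm]
            apply ENNReal.ofReal_le_ofReal
            refine (g5 k).trans ?_
            rw [zpow_neg, zpow_natCast, div_inv_eq_mul]
            have : 0 ≤ (2 : ℝ) ^ W * ((2 : ℝ) ^ k * b) := by positivity
            nlinarith)
          (fun k _ => by
            rw [← ofReal_norm]
            apply ENNReal.ofReal_le_ofReal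
            have := g4 k hb0
            rw [zpow_natCast]
            exact this)
        refine h3.trans (ENNReal.ofReal_le_ofReal ?_)
        push_cast
        have hWn : (0 : ℝ) ≤ W := by positivity
        have hun : (0 : ℝ) ≤ u := by positivity
        nlinarith
    rw [Summable.tsum_finsetSum (fun _ _ => ENNReal.summable)]
    refine (Finset.sum_le_sum hj).trans ?_
    rw [Finset.sum_const, Finset.card_range, nsmul_eq_mul]
    push_cast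
    have h3 : ((2 : ℝ≥0∞) ^ u) = ENNReal.ofReal ((2 : ℝ) ^ u) := by
      rw [ENNReal.ofReal_pow (by norm_num)]
      norm_num
    rw [h3, ← ENNReal.ofReal_mul hu.le]
    apply ENNReal.ofReal_le_ofReal
    have : 0 ≤ (2 : ℝ) ^ u * ((W : ℝ) + u + 1) := by positivity
    nlinarith

end Pool.Agent.Helper99.RG
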