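import Pool.Agent.Helper20.RG.St1

set_option autoImplicit false

open MeasureTheory Set Filter Topology
open scoped ENNReal RealInnerProductSpace

namespace Pool.Agent.Helper99.RG

open Pool.Agent.Helper20.RG

/-- index of the dyadic interval of length `2^n` containing `t` -/
noncomputable def ix (n : ℤ) (t : ℝ) : ℤ × ℤ := (n, ⌊t / (2 : ℝ) ^ n⌋)

theorem mem_dI_iff (n i : ℤ) (t : ℝ) : t ∈ dI (n, i) ↔ ⌊t / (2 : ℝ) ^ n⌋ = i := by
  have h2 : (0 : ℝ) < (2 : ℝ) ^ n := by positivity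
  rw [Int.floor_eq_iff]
  unfold dI
  simp only [mem_Ico]
  rw [le_div_iff₀ h2, div_lt_iff₀ h2]

theorem mem_ix (n : ℤ) (t : ℝ) : t ∈ dI (ix n t) := by
  unfold ix
  rw [mem_dI_iff]

theorem mem_ix_iff (n : ℤ) (x t : ℝ) : x ∈ dI (ix n t) ↔ ix n x = ix n t := by
  unfold ix
  rw [mem_dI_iff]
  constructor
  · intro h; rw [h]
  · intro h; exact (Prod.mk.inj h).2

theorem nest (n n' : ℤ) (hn : n ≤ n') (x t : ℝ) (h : ⌊x / (2 : ℝ) ^ n⌋ = ⌊t / (2 : ℝ) ^ n⌋) :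
    ⌊x / (2 : ℝ) ^ n'⌋ = ⌊t / (2 : ℝ) ^ n'⌋ := by
  obtain ⟨k, hk⟩ := Int.eq_ofNat_of_zero_le (sub_nonneg.2 hn)
  have hn' : n' = n + k := by omega
  have h2 : (0 : ℝ) < (2 : ℝ) ^ n := by positivity
  have h3 : (2 : ℝ) ^ n' = (2 : ℝ) ^ n * (((2 : ℤ) ^ k : ℤ) : ℝ) := by
    rw [hn', zpow_add₀ (by norm_num)]
    push_cast
    rw [zpow_natCast]
  have hK : (0 : ℝ) < (((2 : ℤ) ^ k : ℤ) : ℝ) := by positivity
  set K : ℤ := (2 : ℤ) ^ k with hKdef
  set i : ℤ := ⌊t / (2 : ℝ) ^ n⌋ with hi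
  set j : ℤ := ⌊t / (2 : ℝ) ^ n'⌋ with hj
  rw [Int.floor_eq_iff] at h ⊢
  rw [h3, ← div_div, le_div_iff₀ hK, div_lt_iff₀ hK]
  have hj1 : (j : ℝ) ≤ t / (2 : ℝ) ^ n' := Int.floor_le _
  have hj2 : t / (2 : ℝ) ^ n' < j + 1 := Int.lt_floor_add_one _
  rw [h3, ← div_div, le_div_iff₀ hK] at hj1
  rw [h3, ← div_div, div_lt_iff₀ hK] at hj2
  have e1 : j * K ≤ i := by
    rw [hi, Int.le_floor]
    push_cast
    exact hj1
  have e2 : i < (j + 1) * K := by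
    rw [hi, Int.floor_lt]
    push_cast
    exact hj2
  have e1' : ((j : ℝ)) * (K : ℝ) ≤ i := by exact_mod_cast e1
  have e2' : (i : ℝ) + 1 ≤ ((j : ℝ) + 1) * (K : ℝ) := by exact_mod_cast (show i + 1 ≤ (j + 1) * K by omega)
  exact ⟨e1'.trans h.1, lt_of_lt_of_le h.2 e2'⟩

theorem vol_dI (a : ℤ × ℤ) : volume (dI a) = ENNReal.ofReal ((2 : ℝ) ^ a.1) := by
  unfold dI
  rw [Real.volume_Ico]
  congr 1
  ring

theorem vol_dI5 (a : ℤ × ℤ) : volume (dI5 a) = ENNReal.ofReal (5 * (2 : ℝ) ^ a.1) := by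
  unfold dI5
  rw [Real.volume_Icc]
  congr 1
  ring

theorem hRA : StRA := by
  intro F Γ p hF hΓ
  have hΓ0 : 0 < Γ := by linarith
  set Good : ℤ → ℝ → Prop := fun n t => ENNReal.ofReal ((2 : ℝ) ^ n / Γ) ≤ volume (F ∩ dI (ix n t)) with hGood
  set isMax : ℤ → ℝ → Prop := fun n t => n ≤ p ∧ Good n t ∧ ∀ n', n' ≤ p → Good n' t → n' ≤ n with hisMax
  have hex : ∀ t ∈ F, ∃ n, isMax n t := by
    intro t ht
    obtain ⟨ε, hε, hb⟩ := Metric.isOpen_iff.1 hF t ht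
    obtain ⟨n₀, hn₀⟩ : ∃ n₀ : ℤ, n₀ ≤ p ∧ (2 : ℝ) ^ n₀ < ε := by
      obtain ⟨k, hk⟩ := exists_pow_lt_of_lt_one (show 0 < ε / (2 : ℝ) ^ p by positivity)
        (show (1 / 2 : ℝ) < 1 by norm_num)
      refine ⟨p - k, by omega, ?_⟩
      rw [lt_div_iff₀ (by positivity)] at hk
      have : (2 : ℝ) ^ (p - (k : ℤ)) = (1 / 2 : ℝ) ^ k * (2 : ℝ) ^ p := by
        rw [zpow_sub₀ (by norm_num), zpow_natCast, one_div, inv_pow, mul_comm, div_eq_mul_inv]
      rw [this]; exact hk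
    have hg : Good n₀ t := by
      have hsub : dI (ix n₀ t) ⊆ F := by
        intro x hx
        apply hb
        rw [Metric.mem_ball, Real.dist_eq]
        have h1 := mem_ix n₀ t
        unfold dI ix at h1 hx
        simp only [mem_Ico] at h1 hx
        rw [abs_lt]
        constructor <;> nlinarith [h1.1, h1.2, hx.1, hx.2, hn₀.2]
      rw [hGood]
      dsimp only
      rw [inter_eq_self_of_subset_right hsub, vol_dI]
      apply ENNReal.ofReal_le_ofReal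
      exact div_le_self (by positivity) hΓ
    obtain ⟨n, hn, hmax⟩ := Int.exists_greatest_of_bdd (P := fun n => n ≤ p ∧ Good n t)
      ⟨p, fun z hz => hz.1⟩ ⟨n₀, hn₀.1, hg⟩
    exact ⟨n, hn.1, hn.2, fun n' h1 h2 => hmax n' ⟨h1, h2⟩⟩
  set I : Set (ℤ × ℤ) := {a | ∃ t ∈ F, isMax a.1 t ∧ a = ix a.1 t} with hI
  have hI1 : ∀ a ∈ I, a.1 ≤ p ∧ ENNReal.ofReal ((2 : ℝ) ^ a.1 / Γ) ≤ volume (F ∩ dI a) ∧
      (a.1 < p → volume (F ∩ dI a) ≤ ENNReal.ofReal (2 * (2 : ℝ) ^ a.1 / Γ)) := by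
    rintro a ⟨t, ht, hm, ha⟩
    obtain ⟨h1, h2, h3⟩ := hm
    refine ⟨h1, ?_, ?_⟩
    · rw [ha]
      exact h2
    · intro hlt
      have h4 : ¬ Good (a.1 + 1) t := fun h => by
        have := h3 (a.1 + 1) (by omega) h
        omega
      simp only [hGood, not_le] at h4
      have h5 : dI a ⊆ dI (ix (a.1 + 1) t) := by
        intro x hx
        rw [ha] at hx
        unfold ix at hx ⊢
        rw [mem_dI_iff] at hx ⊢
        exact nest _ _ (by omega) _ _ hx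
      refine (measure_mono (inter_subset_inter_right F h5)).trans (h4.le.trans ?_)
      apply ENNReal.ofReal_le_ofReal
      rw [zpow_add_one₀ (by norm_num)]
      exact le_of_eq (by ring)
  have hI2 : ∀ a ∈ I, ∀ b ∈ I, a ≠ b → Disjoint (dI a) (dI b) := by
    have key : ∀ a ∈ I, ∀ b ∈ I, a.1 ≤ b.1 → ∀ x, x ∈ dI a → x ∈ dI b → a = b := by
      rintro a ⟨t, ht, hm, ha⟩ b ⟨t', ht', hm', hb⟩ hab x hxa hxb
      rw [ha, mem_ix_iff] at hxa
      rw [hb, mem_ix_iff] at hxb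
      have h1 : ⌊x / (2 : ℝ) ^ a.1⌋ = ⌊t / (2 : ℝ) ^ a.1⌋ := (Prod.mk.inj hxa).2
      have h2 := nest a.1 b.1 hab x t h1
      have h3 : ix b.1 t = ix b.1 t' := by
        rw [← hxb]
        unfold ix
        rw [h2]
      have h4 : Good b.1 t := by
        have := hm'.2.1
        simp only [hGood] at this ⊢
        rw [h3]
        exact this
      have h5 := hm.2.2 b.1 hm'.1 h4
      have h6 : a.1 = b.1 := le_antisymm hab h5
      rw [ha, hb, ← h3, h6]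
    intro a ha b hb hne
    rw [Set.disjoint_left]
    intro x hxa hxb
    rcases le_total a.1 b.1 with h | h
    · exact hne (key a ha b hb h x hxa hxb)
    · exact hne (key b hb a ha h x hxb hxa).symm
  refine ⟨I, hI1, hI2, ?_, ?_⟩
  · intro t ht
    obtain ⟨n, hn⟩ := hex t ht
    rw [mem_iUnion₂]
    exact ⟨ix n t, ⟨t, ht, hn, rfl⟩, mem_ix n t⟩
  · intro A B hAB
    set I' : Set (ℤ × ℤ) := {a | a ∈ I ∧ (dI5 a ∩ Icc A B).Nonempty} with hI'
    have hc : I'.Countable := Set.to_countable _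
    have h1 : Om I ∩ Icc A B ⊆ ⋃ a ∈ I', dI5 a := by
      rintro x ⟨hx, hx2⟩
      unfold Om at hx
      rw [mem_iUnion₂] at hx ⊢
      obtain ⟨a, ha, hxa⟩ := hx
      exact ⟨a, ⟨ha, x, hxa, hx2⟩, hxa⟩
    have h2 : volume (⋃ a ∈ I', dI5 a) ≤ ∑' a : I', volume (dI5 a.1) := measure_biUnion_le _ hc _
    have h3 : ∀ a : I', volume (dI5 a.1) ≤ ENNReal.ofReal (5 * Γ) * volume (F ∩ dI a.1) := by
      intro a
      have := (hI1 a.1 a.2.1).2.1
      rw [vol_dI5]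
      calc ENNReal.ofReal (5 * (2 : ℝ) ^ (a.1.1)) = ENNReal.ofReal (5 * Γ) * ENNReal.ofReal ((2 : ℝ) ^ a.1.1 / Γ) := by
            rw [← ENNReal.ofReal_mul (by positivity)]
            congr 1
            field_simp
        _ ≤ _ := mul_le_mul' le_rfl this
    have h4 : ∑' a : I', volume (F ∩ dI a.1) = volume (⋃ a ∈ I', F ∩ dI a) := by
      rw [measure_biUnion hc]
      · intro a ha b hb hne
        exact (hI2 a ha.1 b hb.1 hne).mono inter_subset_right inter_subset_right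
      · intro a _
        exact hF.measurableSet.inter measurableSet_Ico
    have h5 : (⋃ a ∈ I', F ∩ dI a) ⊆ F ∩ Icc (A - 3 * (2 : ℝ) ^ p) (B + 3 * (2 : ℝ) ^ p) := by
      intro x hx
      rw [mem_iUnion₂] at hx
      obtain ⟨a, ha, hxF, hxa⟩ := hx
      refine ⟨hxF, ?_⟩
      obtain ⟨hy0, y, hy1, hy2⟩ := ha
      have hp : (2 : ℝ) ^ a.1 ≤ (2 : ℝ) ^ p := zpow_le_zpow_right₀ (by norm_num) (hI1 a hy0).1
      unfold dI5 at hy1
      unfold dI at hxa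
      rw [mem_Icc] at hy1 hy2 ⊢
      rw [mem_Ico] at hxa
      constructor <;> nlinarith [hy1.1, hy1.2, hy2.1, hy2.2, hxa.1, hxa.2, hp]
    calc volume (Om I ∩ Icc A B) ≤ volume (⋃ a ∈ I', dI5 a) := measure_mono h1
      _ ≤ ∑' a : I', volume (dI5 a.1) := h2
      _ ≤ ∑' a : I', ENNReal.ofReal (5 * Γ) * volume (F ∩ dI a.1) := ENNReal.tsum_le_tsum h3
      _ = ENNReal.ofReal (5 * Γ) * volume (⋃ a ∈ I', F ∩ dI a) := by rw [ENNReal.tsum_mul_left, h4]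
      _ ≤ _ := mul_le_mul' le_rfl (measure_mono h5)

end Pool.Agent.Helper99.RG
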