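import Pool.Agent.Helper20.RG.St1

set_option autoImplicit false

open MeasureTheory Set Filter Topology
open scoped ENNReal RealInnerProductSpace

namespace Pool.Agent.Helper99.RG

open Pool.Agent.Helper20.RG

theorem dom_of_rel (s w : ℕ → ℝ) (a b c : ℕ) (la lb lc : ℝ) (h1 : la * (1 / w a) + lb * (1 / w b) + lc * (1 / w c) = 0)
    (h2 : la * (s a / w a) + lb * (s b / w b) + lc * (s c / w c) = 0) (hc : lc ≠ 0) (ha : |la| ≤ |lc|)
    (hb : |lb| ≤ |lc|) : Dom s w a b c := by
  have hc' : 0 < |lc| := abs_pos.2 hc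
  refine ⟨-(la / lc), -(lb / lc), ?_, ?_, ?_, ?_⟩
  · rw [abs_neg, abs_div]
    exact div_le_one_of_le₀ ha hc'.le
  · rw [abs_neg, abs_div]
    exact div_le_one_of_le₀ hb hc'.le
  · have : lc * (1 / w c) = -(la * (1 / w a)) - lb * (1 / w b) := by linarith
    calc 1 / w c = (lc * (1 / w c)) / lc := by rw [mul_div_cancel_left₀ _ hc]
      _ = (-(la * (1 / w a)) - lb * (1 / w b)) / lc := by rw [this]
      _ = _ := by ring
  · have : lc * (s c / w c) = -(la * (s a / w a)) - lb * (s b / w b) := by linarith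
    calc s c / w c = (lc * (s c / w c)) / lc := by rw [mul_div_cancel_left₀ _ hc]
      _ = (-(la * (s a / w a)) - lb * (s b / w b)) / lc := by rw [this]
      _ = _ := by ring

theorem dom_symm (s w : ℕ → ℝ) (a b c : ℕ) (h : Dom s w a b c) : Dom s w b a c := by
  obtain ⟨μ, ν, h1, h2, h3, h4⟩ := h
  exact ⟨ν, μ, h2, h1, by rw [h3]; ring, by rw [h4]; ring⟩

theorem dom_par (s w : ℕ → ℝ) (a b c : ℕ) (hc : 0 < w c) (ha : 0 < w a) (hs : s a = s c)
    (hw : w a ≤ w c) : Dom s w a b c := by
  refine ⟨w a / w c, 0, ?_, by simp, ?_, ?_⟩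
  · rw [abs_of_pos (by positivity)]
    exact div_le_one_of_le₀ hw hc.le
  · field_simp
    ring
  · rw [hs]
    field_simp
    ring

theorem dom3 (s w : ℕ → ℝ) (a b c : ℕ) (ha : 0 < w a) (hb : 0 < w b) (hc : 0 < w c) :
    Dom s w a b c ∨ Dom s w b c a ∨ Dom s w a c b := by
  by_cases h0 : s a = s b ∧ s b = s c
  · obtain ⟨hab, hbc⟩ := h0
    by_cases h1 : w a ≤ w c
    · exact Or.inl (dom_par s w a b c hc ha (hab.trans hbc) h1)
    · push Not at h1
      -- w c < w a : c dominates a
      refine Or.inr (Or.inl ?_)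
      exact dom_symm _ _ _ _ _ (dom_par s w c b a ha hc (hab.trans hbc).symm h1.le)
  · set la : ℝ := (s c - s b) / (w b * w c) with hla
    set lb : ℝ := (s a - s c) / (w a * w c) with hlb
    set lc : ℝ := (s b - s a) / (w a * w b) with hlc
    have h1 : la * (1 / w a) + lb * (1 / w b) + lc * (1 / w c) = 0 := by
      rw [hla, hlb, hlc]; field_simp; ring
    have h2 : la * (s a / w a) + lb * (s b / w b) + lc * (s c / w c) = 0 := by
      rw [hla, hlb, hlc]; field_simp; ring
    have hne : ¬ (la = 0 ∧ lb = 0 ∧ lc = 0) := by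
      rintro ⟨h3, -, h5⟩
      apply h0
      rw [hla, div_eq_zero_iff] at h3
      rw [hlc, div_eq_zero_iff] at h5
      have h6 : w b * w c ≠ 0 := by positivity
      have h7 : w a * w b ≠ 0 := by positivity
      constructor
      · rcases h5 with h | h
        · linarith
        · exact absurd h h7
      · rcases h3 with h | h
        · linarith
        · exact absurd h h6
    rcases le_total |la| |lb| with hab | hab
    · rcases le_total |lb| |lc| with hbc | hbc
      · refine Or.inl (dom_of_rel s w a b c la lb lc h1 h2 ?_ (hab.trans hbc) hbc)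
        intro h
        rw [h, abs_zero] at hbc
        have e2 := abs_nonpos_iff.1 hbc
        rw [e2, abs_zero] at hab
        exact hne ⟨abs_nonpos_iff.1 hab, e2, h⟩
      · refine Or.inr (Or.inr (dom_of_rel s w a c b la lc lb (by linarith) (by linarith) ?_ hab hbc))
        intro h
        rw [h, abs_zero] at hbc hab
        exact hne ⟨abs_nonpos_iff.1 hab, h, abs_nonpos_iff.1 hbc⟩
    · rcases le_total |la| |lc| with hac | hac
      · refine Or.inl (dom_of_rel s w a b c la lb lc h1 h2 ?_ hac (hab.trans hac))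
        intro h
        rw [h, abs_zero] at hac
        have e2 := abs_nonpos_iff.1 hac
        rw [e2, abs_zero] at hab
        exact hne ⟨e2, abs_nonpos_iff.1 hab, h⟩
      · refine Or.inr (Or.inl (dom_of_rel s w b c a lb lc la (by linarith) (by linarith) ?_ hab hac))
        intro h
        rw [h, abs_zero] at hac hab
        exact hne ⟨h, abs_nonpos_iff.1 hab, abs_nonpos_iff.1 hac⟩

theorem hRB : StRB := by
  classical
  intro s w S hw h3
  set M : ℝ := (S.card : ℝ) with hM
  have hM3 : (3 : ℝ) ≤ M := by rw [hM]; exact_mod_cast h3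
  set good : ℕ → ℕ → Prop := fun a b => (M - 2) / 6 ≤ ({c : ℕ | c ∈ S ∧ Dom s w a b c}.ncard : ℝ) with hgood
  set F : ℕ → ℕ → ℕ → ℝ := fun a b c => if (a ≠ b ∧ c ≠ a ∧ c ≠ b ∧ Dom s w a b c) then 1 else 0 with hF
  set T : ℝ := ∑ a ∈ S, ∑ b ∈ S, ∑ c ∈ S, F a b c with hT
  -- number of pairs
  set P : ℝ := ∑ a ∈ S, ∑ b ∈ S, (if (a ≠ b ∧ good a b) then (1 : ℝ) else 0) with hP
  have hPn : ({q : ℕ × ℕ | q.1 ∈ S ∧ q.2 ∈ S ∧ q.1 ≠ q.2 ∧
      (M - 2) / 6 ≤ ({c : ℕ | c ∈ S ∧ Dom s w q.1 q.2 c}.ncard : ℝ)}.ncard : ℝ) = P := by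
    have h1 : {q : ℕ × ℕ | q.1 ∈ S ∧ q.2 ∈ S ∧ q.1 ≠ q.2 ∧
      (M - 2) / 6 ≤ ({c : ℕ | c ∈ S ∧ Dom s w q.1 q.2 c}.ncard : ℝ)} =
      ↑((S ×ˢ S).filter (fun q : ℕ × ℕ => q.1 ≠ q.2 ∧ good q.1 q.2)) := by
      ext q
      simp only [Set.mem_ofPred_eq, Finset.coe_filter, Finset.mem_product, hgood]
      tauto
    rw [h1, Set.ncard_coe_finset, hP, ← Finset.sum_product' S S
      (fun a b => if (a ≠ b ∧ good a b) then (1 : ℝ) else 0), Finset.sum_boole]
  rw [hPn]
  -- cardinalities
  have hcard2 : ∀ a ∈ S, ∀ b ∈ S, a ≠ b → (((S.filter (fun c => c ≠ a ∧ c ≠ b)).card : ℕ) : ℝ) = M - 2 := by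
    intro a ha b hb hab
    have h1 : S.filter (fun c => c ≠ a ∧ c ≠ b) = (S.erase a).erase b := by
      ext c
      simp only [Finset.mem_filter, Finset.mem_erase]
      tauto
    have h2 : ((S.erase a).erase b).card = S.card - 2 := by
      rw [Finset.card_erase_of_mem (Finset.mem_erase.2 ⟨hab.symm, hb⟩), Finset.card_erase_of_mem ha]
      omega
    rw [h1, h2, Nat.cast_sub (by omega)]
    rw [hM]
    norm_num
  have hrow : ∀ (x : ℝ), ∑ a ∈ S, ∑ b ∈ S, (if a ≠ b then x else 0) = M * (M - 1) * x := by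
    intro x
    have h1 : ∀ a ∈ S, ∑ b ∈ S, (if a ≠ b then x else 0) = (M - 1) * x := by
      intro a ha
      rw [← Finset.sum_filter]
      have h2 : S.filter (fun b => a ≠ b) = S.erase a := by
        ext c
        simp only [Finset.mem_filter, Finset.mem_erase]
        tauto
      rw [h2, Finset.sum_const, Finset.card_erase_of_mem ha, nsmul_eq_mul, Nat.cast_sub (by omega)]
      rw [hM]
      norm_num
    rw [Finset.sum_congr rfl h1, Finset.sum_const, nsmul_eq_mul, ← hM]
    ring
  -- step A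
  have hA : ∑ a ∈ S, ∑ b ∈ S, ∑ c ∈ S, (if (a ≠ b ∧ c ≠ a ∧ c ≠ b) then (1 : ℝ) else 0) =
      M * (M - 1) * (M - 2) := by
    rw [← hrow (M - 2)]
    apply Finset.sum_congr rfl
    intro a ha
    apply Finset.sum_congr rfl
    intro b hb
    by_cases hab : a = b
    · subst hab
      simp
    · simp only [ne_eq, hab, not_false_eq_true, true_and, if_true]
      rw [Finset.sum_boole]
      exact hcard2 a ha b hb hab
  have hT2 : ∑ a ∈ S, ∑ b ∈ S, ∑ c ∈ S, F b c a = T := by
    rw [hT, Finset.sum_comm]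
    apply Finset.sum_congr rfl
    intro b _
    rw [Finset.sum_comm]
  have hT3 : ∑ a ∈ S, ∑ b ∈ S, ∑ c ∈ S, F a c b = T := by
    rw [hT]
    apply Finset.sum_congr rfl
    intro a _
    rw [Finset.sum_comm]
  have hlow : M * (M - 1) * (M - 2) ≤ 3 * T := by
    have h1 : M * (M - 1) * (M - 2) ≤ ∑ a ∈ S, ∑ b ∈ S, ∑ c ∈ S, (F a b c + F b c a + F a c b) := by
      rw [← hA]
      apply Finset.sum_le_sum
      intro a ha
      apply Finset.sum_le_sum
      intro b hb
      apply Finset.sum_le_sum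
      intro c hc
      have hFn : ∀ x y z, 0 ≤ F x y z := fun x y z => by
        simp only [hF]; split_ifs <;> norm_num
      split_ifs with h
      · obtain ⟨hab, hca, hcb⟩ := h
        rcases dom3 s w a b c (hw a ha) (hw b hb) (hw c hc) with h | h | h
        · have : F a b c = 1 := by simp only [hF]; rw [if_pos ⟨hab, hca, hcb, h⟩]
          linarith [hFn b c a, hFn a c b]
        · have : F b c a = 1 := by simp only [hF]; rw [if_pos ⟨hcb.symm, hab, hca.symm, h⟩]
          linarith [hFn a b c, hFn a c b]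
        · have : F a c b = 1 := by simp only [hF]; rw [if_pos ⟨hca.symm, hab.symm, hcb.symm, h⟩]
          linarith [hFn a b c, hFn b c a]
      · linarith [hFn a b c, hFn b c a, hFn a c b]
    simp only [Finset.sum_add_distrib] at h1
    rw [hT2, hT3, ← hT] at h1
    linarith
  -- step B
  have hup : T ≤ M * (M - 1) * ((M - 2) / 6) + 5 / 6 * (M - 2) * P := by
    rw [← hrow ((M - 2) / 6), hP, Finset.mul_sum, ← Finset.sum_add_distrib, hT]
    apply Finset.sum_le_sum
    intro a ha
    rw [Finset.mul_sum, ← Finset.sum_add_distrib]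
    apply Finset.sum_le_sum
    intro b hb
    by_cases hab : a = b
    · subst hab
      simp [hF]
    · have e1 : ∑ c ∈ S, F a b c = ((S.filter (fun c => c ≠ a ∧ c ≠ b ∧ Dom s w a b c)).card : ℝ) := by
        simp only [hF, ne_eq, hab, not_false_eq_true, true_and]
        rw [Finset.sum_boole]
      have e2 : ((S.filter (fun c => c ≠ a ∧ c ≠ b ∧ Dom s w a b c)).card : ℝ) ≤ M - 2 := by
        rw [← hcard2 a ha b hb hab]
        have : S.filter (fun c => c ≠ a ∧ c ≠ b ∧ Dom s w a b c) ⊆ S.filter (fun c => c ≠ a ∧ c ≠ b) := by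
          intro c hc
          rw [Finset.mem_filter] at hc ⊢
          exact ⟨hc.1, hc.2.1, hc.2.2.1⟩
        exact_mod_cast Finset.card_le_card this
      rw [e1]
      by_cases hg : good a b
      · rw [if_pos hab, if_pos ⟨hab, hg⟩]
        linarith
      · rw [if_pos hab, if_neg (fun h => hg h.2)]
        have e3 : ((S.filter (fun c => c ≠ a ∧ c ≠ b ∧ Dom s w a b c)).card : ℝ) ≤
            ({c : ℕ | c ∈ S ∧ Dom s w a b c}.ncard : ℝ) := by
          have h4 : {c : ℕ | c ∈ S ∧ Dom s w a b c} = ↑(S.filter (fun c => Dom s w a b c)) := by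
            ext c
            simp
          rw [h4, Set.ncard_coe_finset]
          have : S.filter (fun c => c ≠ a ∧ c ≠ b ∧ Dom s w a b c) ⊆ S.filter (fun c => Dom s w a b c) := by
            intro c hc
            rw [Finset.mem_filter] at hc ⊢
            exact ⟨hc.1, hc.2.2.2⟩
          exact_mod_cast Finset.card_le_card this
        simp only [hgood, not_le] at hg
        linarith
  have hM2 : 0 < M - 2 := by linarith
  have h5 : (M - 2) * (M * (M - 1) / 2) ≤ (M - 2) * (5 / 2 * P) := by nlinarith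
  have h6 := le_of_mul_le_mul_left h5 hM2
  linarith

end Pool.Agent.Helper99.RG
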