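import Pool.Agent.Helper99.RG.Tl

set_option autoImplicit false

open MeasureTheory Set Filter Topology
open scoped ENNReal RealInnerProductSpace

namespace Pool.Agent.Helper99.RG

open Pool.Agent.Helper68.LM (Pl)
open Pool.Agent.Helper20.RG

theorem hSM2 (hPT : StPT) : StSM2 := by
  intro s L L₂ z O hs hL hLL hO
  obtain ⟨pt1, -, -, -, -, ptl, -⟩ := hPT
  have hL₂ : 0 < L₂ := by linarith
  set c : ℝ := pr s z with hc
  have hcz : c = z 1 - s * z 0 := rfl
  set V : ℝ≥0∞ := volume (O ∩ Icc (c - 41 / 10 * L₂) (c + 41 / 10 * L₂)) with hV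
  have hm : Measurable (fun y : Pl => ENNReal.ofReal (cut z L₂ y * tl L (ind O) (pr s y) ^ 2)) :=
    ((cut_meas z L₂).mul (((tl_meas O hO L hL).comp (pr_meas s)).pow_const 2)).ennreal_ofReal
  set G : ℝ → ℝ≥0∞ := (Icc (c - 4 * L₂) (c + 4 * L₂)).indicator
    (fun ρ => ENNReal.ofReal (ind O ρ) + ENNReal.ofReal (bL L (ind O) ρ)) with hG
  have hGm : ∫⁻ ρ, G ρ ≤ 2 * V := by
    rw [hG, lintegral_indicator measurableSet_Icc, lintegral_add_left (ind_meas O hO).ennreal_ofReal, two_mul]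
    apply add_le_add
    · calc ∫⁻ ρ in Icc (c - 4 * L₂) (c + 4 * L₂), ENNReal.ofReal (ind O ρ)
          = ∫⁻ ρ in Icc (c - 4 * L₂) (c + 4 * L₂), O.indicator (fun _ => (1 : ℝ≥0∞)) ρ :=
            lintegral_congr (fun ρ => ofReal_ind O ρ)
        _ = volume (O ∩ Icc (c - 4 * L₂) (c + 4 * L₂)) := by
            rw [lintegral_indicator_const hO, one_mul, Measure.restrict_apply hO]
        _ ≤ V := measure_mono (inter_subset_inter_right O (Icc_subset_Icc (by linarith) (by linarith)))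
    · refine (lint_bL O hO L _ _ hL).trans (measure_mono (inter_subset_inter_right O
        (Icc_subset_Icc (by linarith) (by linarith))))
  rw [ptl _ hm]
  have hpt : ∀ a b : ℝ, ENNReal.ofReal (cut z L₂ (pt a b) * tl L (ind O) (pr s (pt a b)) ^ 2) ≤
      (Icc (z 0 - 2 * L₂) (z 0 + 2 * L₂)).indicator (fun _ => G (b - s * a)) a := by
    intro a b
    have hpa : (pt a b) 0 = a := (pt1 a b).1
    have hpb : (pt a b) 1 = b := (pt1 a b).2
    have hpr : pr s (pt a b) = b - s * a := by unfold pr; rw [hpa, hpb]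
    by_cases h1 : 2 * L₂ < |(pt a b) 0 - z 0| ∨ 2 * L₂ < |(pt a b) 1 - z 1|
    · rw [cut_zero z L₂ hL₂ _ h1, zero_mul, ENNReal.ofReal_zero]
      exact zero_le
    · push Not at h1
      rw [hpa, hpb] at h1
      have h2 := abs_le.1 h1.1
      have h3 := abs_le.1 h1.2
      rw [indicator_of_mem (by rw [mem_Icc]; constructor <;> linarith)]
      have h4 : b - s * a ∈ Icc (c - 4 * L₂) (c + 4 * L₂) := by
        have h5 : |s * (a - z 0)| ≤ 2 * L₂ := by
          rw [abs_mul]
          calc |s| * |a - z 0| ≤ 1 * (2 * L₂) := mul_le_mul hs h1.1 (abs_nonneg _) (by norm_num)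
            _ = 2 * L₂ := one_mul _
        have h6 := abs_le.1 h5
        rw [mem_Icc, hcz]
        constructor <;> linarith
      rw [hG, indicator_of_mem h4, hpr, ← ENNReal.ofReal_add (ind_nonneg _ _) (bL_nonneg _ _ _ hL)]
      apply ENNReal.ofReal_le_ofReal
      calc cut z L₂ (pt a b) * tl L (ind O) (b - s * a) ^ 2 ≤ 1 * tl L (ind O) (b - s * a) ^ 2 :=
            mul_le_mul_of_nonneg_right (cut_le_one z L₂ _) (sq_nonneg _)
        _ ≤ _ := by rw [one_mul]; exact tl_sq_le O hO L _ hL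
  calc ∫⁻ a : ℝ, ∫⁻ b : ℝ, ENNReal.ofReal (cut z L₂ (pt a b) * tl L (ind O) (pr s (pt a b)) ^ 2)
      ≤ ∫⁻ a : ℝ, ∫⁻ b : ℝ, (Icc (z 0 - 2 * L₂) (z 0 + 2 * L₂)).indicator (fun _ => G (b - s * a)) a :=
        lintegral_mono (fun a => lintegral_mono (fun b => hpt a b))
    _ = ∫⁻ a : ℝ, (Icc (z 0 - 2 * L₂) (z 0 + 2 * L₂)).indicator (fun _ => ∫⁻ b : ℝ, G b) a := by
        apply lintegral_congr
        intro a
        by_cases ha : a ∈ Icc (z 0 - 2 * L₂) (z 0 + 2 * L₂)
        · simp only [indicator_of_mem ha]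
          exact lintegral_sub_right_eq_self G (s * a)
        · simp only [indicator_of_notMem ha, lintegral_zero]
    _ = (∫⁻ b : ℝ, G b) * ENNReal.ofReal (4 * L₂) := by
        rw [lintegral_indicator_const measurableSet_Icc, Real.volume_Icc]
        congr 2
        ring
    _ ≤ 2 * V * ENNReal.ofReal (4 * L₂) := mul_le_mul' hGm le_rfl
    _ = ENNReal.ofReal (8 * L₂) * V := by
        have : (2 : ℝ≥0∞) = ENNReal.ofReal 2 := by norm_num
        rw [this, mul_comm, ← mul_assoc, ← ENNReal.ofReal_mul (by positivity)]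
        congr 2
        ring

end Pool.Agent.Helper99.RG
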