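import Pool.Agent.Helper20.RG.St3

set_option autoImplicit false

open MeasureTheory Set Filter Topology
open scoped ENNReal RealInnerProductSpace

namespace Pool.Agent.Helper99.RG

open Pool.Agent.Helper68.LM (Pl BB Bd Av HL ft fm DQ)
open Pool.Agent.Helper20.RG

theorem tel (s : ℕ → ℝ) (hs : Monotone s) (a n H : ℕ) :
    ∑ i ∈ Finset.range (n + 1), (s (a + i + H) - s (a + i)) ≤ H * (s (a + n + H) - s a) := by
  induction H with
  | zero => simp
  | succ H ih =>
    have h1 : ∑ i ∈ Finset.range (n + 1), (s (a + i + (H + 1)) - s (a + i)) =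
        ∑ i ∈ Finset.range (n + 1), (s (a + H + (i + 1)) - s (a + H + i)) +
        ∑ i ∈ Finset.range (n + 1), (s (a + i + H) - s (a + i)) := by
      rw [← Finset.sum_add_distrib]
      apply Finset.sum_congr rfl
      intro i _
      have e1 : a + i + (H + 1) = a + H + (i + 1) := by ring
      have e2 : a + i + H = a + H + i := by ring
      rw [e1, e2]
      ring
    rw [h1, Finset.sum_range_sub (fun i => s (a + H + i)) (n + 1)]
    have e3 : a + H + (n + 1) = a + n + (H + 1) := by ring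
    rw [e3, add_zero]
    have h2 : s a ≤ s (a + H) := hs (by omega)
    have h3 : s (a + n + H) ≤ s (a + n + (H + 1)) := hs (by omega)
    have h4 : (H : ℝ) * (s (a + n + H) - s a) ≤ H * (s (a + n + (H + 1)) - s a) :=
      mul_le_mul_of_nonneg_left (by linarith) (by positivity)
    push_cast
    linarith

theorem cntgen (s : ℕ → ℝ) (hs : Monotone s) (M h : ℕ) (θ T w : ℝ) (hw : 0 < w) (hT : 0 ≤ T)
    (P : ℕ → Prop) (hP : ∀ j < M, P j → h ≤ j → w ≤ s (j + h) - s (j - h)) :
    ({j : ℕ | j < M ∧ P j ∧ |s j - θ| ≤ T}.ncard : ℝ) ≤ 2 * h + 4 * h * T / w := by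
  classical
  set F := (Finset.range M).filter (fun j => |s j - θ| ≤ T) with hF
  have h0 : {j : ℕ | j < M ∧ P j ∧ |s j - θ| ≤ T} = ↑(F.filter P) := by
    ext j
    simp only [Set.mem_ofPred_eq, Finset.coe_filter, hF, Finset.mem_filter, Finset.mem_range]
    tauto
  rw [h0, Set.ncard_coe_finset]
  by_cases hne : F.Nonempty
  · set j₁ := F.min' hne with hj₁
    set j₂ := F.max' hne with hj₂
    have m1 := F.min'_mem hne
    have m2 := F.max'_mem hne
    rw [← hj₁] at m1
    rw [← hj₂] at m2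
    have m1' := (Finset.mem_filter.1 m1)
    have m2' := (Finset.mem_filter.1 m2)
    set B' := (Finset.Ico (j₁ + h) (j₂ - h + 1)).filter (fun j => j < M ∧ P j) with hB'
    have hsub : F.filter P ⊆ Finset.Ico j₁ (j₁ + h) ∪ Finset.Ioc (j₂ - h) j₂ ∪ B' := by
      intro j hj
      have hj' := Finset.mem_filter.1 hj
      have hjM : j < M := Finset.mem_range.1 (Finset.mem_filter.1 hj'.1).1
      have e1 : j₁ ≤ j := F.min'_le j hj'.1
      have e2 : j ≤ j₂ := F.le_max' j hj'.1
      rw [Finset.mem_union, Finset.mem_union, Finset.mem_Ico, Finset.mem_Ioc, hB', Finset.mem_filter,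
        Finset.mem_Ico]
      by_cases e3 : j < j₁ + h
      · exact Or.inl (Or.inl ⟨e1, e3⟩)
      · by_cases e4 : j₂ - h < j
        · exact Or.inl (Or.inr ⟨e4, e2⟩)
        · exact Or.inr ⟨⟨by omega, by omega⟩, hjM, hj'.2⟩
    have hc : (F.filter P).card ≤ h + h + B'.card := by
      refine (Finset.card_le_card hsub).trans ((Finset.card_union_le _ _).trans ?_)
      apply Nat.add_le_add_right
      refine (Finset.card_union_le _ _).trans ?_
      rw [Nat.card_Ico, Nat.card_Ioc]
      omega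
    have hc' : ((F.filter P).card : ℝ) ≤ 2 * h + B'.card := by
      have : ((F.filter P).card : ℝ) ≤ h + h + B'.card := by exact_mod_cast hc
      linarith
    have hB : (B'.card : ℝ) * w ≤ 4 * h * T := by
      have g1 : (B'.card : ℝ) * w ≤ ∑ j ∈ B', (s (j + h) - s (j - h)) := by
        rw [← nsmul_eq_mul, ← Finset.sum_const]
        apply Finset.sum_le_sum
        intro j hj
        rw [hB', Finset.mem_filter, Finset.mem_Ico] at hj
        exact hP j hj.2.1 hj.2.2 (by omega)
      have g2 : ∑ j ∈ B', (s (j + h) - s (j - h)) ≤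
          ∑ j ∈ Finset.Ico (j₁ + h) (j₂ - h + 1), (s (j + h) - s (j - h)) := by
        apply Finset.sum_le_sum_of_subset_of_nonneg (Finset.filter_subset _ _)
        intro j _ _
        have : s (j - h) ≤ s (j + h) := hs (by omega)
        linarith
      rw [Finset.sum_Ico_eq_sum_range] at g2
      by_cases hn : j₁ + 2 * h ≤ j₂
      · have e5 : j₂ - h + 1 - (j₁ + h) = (j₂ - j₁ - 2 * h) + 1 := by omega
        rw [e5] at g2
        have g3 : ∑ k ∈ Finset.range ((j₂ - j₁ - 2 * h) + 1), (s (j₁ + h + k + h) - s (j₁ + h + k - h)) =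
            ∑ k ∈ Finset.range ((j₂ - j₁ - 2 * h) + 1), (s (j₁ + k + 2 * h) - s (j₁ + k)) := by
          apply Finset.sum_congr rfl
          intro k _
          have e6 : j₁ + h + k + h = j₁ + k + 2 * h := by ring
          have e7 : j₁ + h + k - h = j₁ + k := by omega
          rw [e6, e7]
        have g4 := tel s hs j₁ (j₂ - j₁ - 2 * h) (2 * h)
        have e8 : j₁ + (j₂ - j₁ - 2 * h) + 2 * h = j₂ := by omega
        rw [e8] at g4
        have g5 : s j₂ - s j₁ ≤ 2 * T := by
          have a1 := abs_le.1 m1'.2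
          have a2 := abs_le.1 m2'.2
          linarith
        have g6 : ((2 * h : ℕ) : ℝ) * (s j₂ - s j₁) ≤ ((2 * h : ℕ) : ℝ) * (2 * T) :=
          mul_le_mul_of_nonneg_left g5 (by positivity)
        push_cast at g4 g6
        linarith
      · have e12 : j₁ ≤ j₂ := F.min'_le j₂ m2
        have e5 : j₂ - h + 1 - (j₁ + h) = 0 := by omega
        rw [e5, Finset.sum_range_zero] at g2
        have : 0 ≤ 4 * (h : ℝ) * T := by positivity
        linarith
    have hB2 : (B'.card : ℝ) ≤ 4 * h * T / w := by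
      rw [le_div_iff₀ hw]; exact hB
    linarith
  · rw [Finset.not_nonempty_iff_eq_empty] at hne
    rw [hne]
    simp only [Finset.filter_empty, Finset.card_empty, Nat.cast_zero]
    positivity

theorem graph_mono {φ τ : ℝ → ℝ} (hG : Graph φ τ) : Monotone τ := by
  intro t t' htt
  rcases eq_or_lt_of_le htt with h | h
  · rw [h]
  · have h1 := hG.2 t t' htt
    have h2 : τ t * (t' - t) ≤ τ t' * (t' - t) := h1.1.trans h1.2
    exact le_of_mul_le_mul_right h2 (by linarith)

theorem tm_mono (u : ℕ) : Monotone (tm u) := by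
  intro i j hij
  unfold tm
  have : (i : ℝ) ≤ j := by exact_mod_cast hij
  gcongr

theorem tm_mem (u j : ℕ) (hj : j < 2 ^ u) : 0 ≤ tm u j ∧ tm u j ≤ 1 := by
  unfold tm
  constructor
  · positivity
  · rw [div_le_one (by positivity)]
    have : (j : ℝ) + 1 ≤ 2 ^ u := by exact_mod_cast hj
    linarith

theorem trn_le (τ : ℝ → ℝ) (hτ : Monotone τ) (u j h : ℕ) (hj : 2 ≤ h) (hh : h ≤ j) :
    trn τ u j ≤ τ (tm u (j + h)) - τ (tm u (j - h)) := by
  unfold trn
  have hu : (0 : ℝ) < 2 ^ u := by positivity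
  have h2 : (2 : ℝ) ≤ h := by exact_mod_cast hj
  apply sub_le_sub
  · apply hτ
    refine (min_le_right _ _).trans ?_
    unfold tm
    push_cast
    apply div_le_div_of_nonneg_right _ hu.le
    linarith
  · apply hτ
    refine le_trans ?_ (le_max_right _ _)
    unfold tm
    rw [Nat.cast_sub hh]
    apply div_le_div_of_nonneg_right _ hu.le
    linarith

theorem trn_le2 (τ : ℝ → ℝ) (hτ : Monotone τ) (u j h : ℕ) (hu1 : 1 ≤ u) (hj : 4 ≤ h) (hh : h ≤ j) :
    trn τ (u - 1) (j / 2) ≤ τ (tm u (j + h)) - τ (tm u (j - h)) := by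
  unfold trn
  have hu : (0 : ℝ) < 2 ^ (u - 1) := by positivity
  have hu2 : (2 : ℝ) ^ u = 2 * 2 ^ (u - 1) := by
    obtain ⟨k, rfl⟩ : ∃ k, u = k + 1 := ⟨u - 1, by omega⟩
    rw [Nat.add_sub_cancel, pow_succ]
    ring
  have h2 : (4 : ℝ) ≤ h := by exact_mod_cast hj
  have e1 : 2 * ((j / 2 : ℕ) : ℝ) ≤ j := by
    have : 2 * (j / 2) ≤ j := by omega
    exact_mod_cast this
  have e2 : (j : ℝ) ≤ 2 * ((j / 2 : ℕ) : ℝ) + 1 := by
    have : j ≤ 2 * (j / 2) + 1 := by omega
    exact_mod_cast this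
  apply sub_le_sub
  · apply hτ
    refine (min_le_right _ _).trans ?_
    unfold tm
    rw [hu2, div_le_div_iff₀ hu (by positivity)]
    push_cast
    nlinarith
  · apply hτ
    refine le_trans ?_ (le_max_right _ _)
    unfold tm
    rw [Nat.cast_sub hh, hu2, div_le_div_iff₀ (by positivity) hu]
    nlinarith

theorem hSYS (hPT : StPT) (hMM : StMM) : StSYS := by
  classical
  intro φ τ A σ c hG hGap hA hσ u hu
  have hτ := graph_mono hG
  have hs : Monotone (fun j => τ (tm u j)) := hτ.comp (tm_mono u)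
  have hu0 : (0 : ℝ) < 2 ^ u := by positivity
  -- centres
  have hcen : ∀ j < 2 ^ u, ‖ce c φ u j‖ ≤ ‖c‖ + |φ 0| + 3 := by
    intro j hj
    obtain ⟨t0, t1⟩ := tm_mem u j hj
    unfold ce
    have h1 : ‖pt (tm u j) (φ (tm u j))‖ ≤ |tm u j| + |φ (tm u j)| := by
      have h2 := (hPT.2.2.1 (pt (tm u j) (φ (tm u j)))).2.2.1
      rw [(hPT.1 _ _).1, (hPT.1 _ _).2] at h2
      exact h2
    have h3 : |tm u j| ≤ 1 := by rw [abs_of_nonneg t0]; exact t1
    have h4 : |φ (tm u j)| ≤ |φ 0| + 1 := by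
      have h5 := hG.2 0 (tm u j) t0
      have a1 := abs_le.1 (hG.1 0)
      have a2 := abs_le.1 (hG.1 (tm u j))
      rw [sub_zero] at h5
      have h6 : |φ (tm u j) - φ 0| ≤ 1 := by
        rw [abs_le]
        constructor <;> nlinarith
      calc |φ (tm u j)| = |(φ (tm u j) - φ 0) + φ 0| := by rw [sub_add_cancel]
        _ ≤ |φ (tm u j) - φ 0| + |φ 0| := abs_add_le _ _
        _ ≤ _ := by linarith
    have h7 := norm_add_le c (pt (tm u j) (φ (tm u j)))
    linarith
  -- separation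
  have hsep : ∀ (θ : ℝ) (i : ℕ), 1 ≤ i →
      ({j : ℕ | j < 2 ^ u ∧ |τ (tm u j) - θ| ≤ (2 : ℝ) ^ (-(i : ℤ))}.ncard : ℝ) ≤
        1 + (2 : ℝ) ^ u * (A * (i : ℝ) ^ (-(1 / σ))) := by
    intro θ i hi
    have hi0 : (0 : ℝ) < i := by exact_mod_cast hi
    have hAi : 0 < A * (i : ℝ) ^ (-(1 / σ)) := by positivity
    set F := (Finset.range (2 ^ u)).filter (fun j => |τ (tm u j) - θ| ≤ (2 : ℝ) ^ (-(i : ℤ))) with hF
    have h0 : {j : ℕ | j < 2 ^ u ∧ |τ (tm u j) - θ| ≤ (2 : ℝ) ^ (-(i : ℤ))} = ↑F := by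
      ext j
      simp [hF]
    rw [h0, Set.ncard_coe_finset]
    by_cases hne : F.Nonempty
    · have m1 := F.min'_mem hne
      have m2 := F.max'_mem hne
      set j₁ := F.min' hne with hj₁
      set j₂ := F.max' hne with hj₂
      have m1' := (Finset.mem_filter.1 m1)
      have m2' := (Finset.mem_filter.1 m2)
      have e12 : j₁ ≤ j₂ := F.min'_le j₂ m2
      have hsub : F ⊆ Finset.Icc j₁ j₂ := by
        intro j hj
        rw [Finset.mem_Icc]
        exact ⟨F.min'_le j hj, F.le_max' j hj⟩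
      have hc : F.card ≤ j₂ - j₁ + 1 := by
        refine (Finset.card_le_card hsub).trans ?_
        rw [Nat.card_Icc]
        omega
      have hc' : (F.card : ℝ) ≤ (j₂ : ℝ) - j₁ + 1 := by
        have : (F.card : ℝ) ≤ ((j₂ - j₁ + 1 : ℕ) : ℝ) := by exact_mod_cast hc
        rw [Nat.cast_add, Nat.cast_sub e12, Nat.cast_one] at this
        exact this
      have hI : Icc (tm u j₁) (tm u j₂) ⊆ {t : ℝ | t ∈ Icc (0 : ℝ) 1 ∧ |τ t - θ| ≤ (2 : ℝ) ^ (-(i : ℤ))} := by
        intro t ht
        have b1 := tm_mem u j₁ (Finset.mem_range.1 m1'.1)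
        have b2 := tm_mem u j₂ (Finset.mem_range.1 m2'.1)
        refine ⟨⟨b1.1.trans ht.1, ht.2.trans b2.2⟩, ?_⟩
        have c1 := hτ ht.1
        have c2 := hτ ht.2
        have a1 := abs_le.1 m1'.2
        have a2 := abs_le.1 m2'.2
        rw [abs_le]
        constructor <;> linarith
      have h1 := (measure_mono hI).trans (hGap θ i hi)
      rw [Real.volume_Icc] at h1
      have h2 : tm u j₂ - tm u j₁ ≤ A * (i : ℝ) ^ (-(1 / σ)) := (ENNReal.ofReal_le_ofReal_iff hAi.le).1 h1
      have h3 : tm u j₂ - tm u j₁ = ((j₂ : ℝ) - j₁) / 2 ^ u := by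
        unfold tm
        ring
      rw [h3, div_le_iff₀ hu0] at h2
      linarith
    · rw [Finset.not_nonempty_iff_eq_empty] at hne
      rw [hne, Finset.card_empty, Nat.cast_zero]
      positivity
  -- main
  refine ⟨⟨?_, hcen, ?_, ?_, hsep⟩, fun hu2 => ⟨?_, hcen, ?_, ?_, hsep⟩⟩
  · intro j _
    exact hG.1 _
  · intro j hj
    obtain ⟨-, -, -, -, -, h6, -⟩ := hMM φ τ A σ hG hGap hA hσ u j hu hj
    exact ⟨le_rfl, h6⟩
  · intro w T θ hw hT
    have h1 := cntgen (fun j => τ (tm u j)) hs (2 ^ u) 2 θ T (w / 2) (by positivity) hT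
      (fun j => w ≤ (2 : ℝ) ^ u * (2 : ℝ) ^ (-(mm τ u j : ℤ))) (by
        intro j hj hP hh
        obtain ⟨-, -, -, h4, -⟩ := hMM φ τ A σ hG hGap hA hσ u j hu hj
        refine le_trans ?_ (trn_le τ hτ u j 2 le_rfl hh)
        rw [zpow_neg, zpow_natCast, ← div_eq_mul_inv, le_div_iff₀ (by positivity)] at hP
        rw [pow_succ] at h4
        have hm : (0 : ℝ) < (2 : ℝ) ^ (mm τ u j) := by positivity
        by_contra hcon
        push Not at hcon
        nlinarith)
    refine h1.trans ?_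
    have h2 : 4 * ((2 : ℕ) : ℝ) * T / (w / 2) = 16 * (T / w) := by
      field_simp
      push_cast
      ring
    rw [h2]
    have h3 : 0 ≤ T / w := by positivity
    push_cast
    linarith
  · intro j _
    exact hG.1 _
  · intro j hj
    obtain ⟨-, -, -, -, -, h6, h7⟩ := hMM φ τ A σ hG hGap hA hσ u j hu hj
    exact ⟨h7 hu2, h6⟩
  · intro w T θ hw hT
    have h1 := cntgen (fun j => τ (tm u j)) hs (2 ^ u) 4 θ T (w / 4) (by positivity) hT
      (fun j => w ≤ (2 : ℝ) ^ u * (2 : ℝ) ^ (-(mm τ (u - 1) (j / 2) : ℤ))) (by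
        intro j hj hP hh
        have hj2 : j / 2 < 2 ^ (u - 1) := by
          have : 2 ^ u = 2 * 2 ^ (u - 1) := by
            obtain ⟨k, rfl⟩ : ∃ k, u = k + 1 := ⟨u - 1, by omega⟩
            rw [Nat.add_sub_cancel, pow_succ]
            ring
          omega
        obtain ⟨-, -, -, h4, -⟩ := hMM φ τ A σ hG hGap hA hσ (u - 1) (j / 2) (by omega) hj2
        refine le_trans ?_ (trn_le2 τ hτ u j 4 hu le_rfl hh)
        have hu2' : (2 : ℝ) ^ u = 2 * 2 ^ (u - 1) := by
          obtain ⟨k, rfl⟩ : ∃ k, u = k + 1 := ⟨u - 1, by omega⟩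
          rw [Nat.add_sub_cancel, pow_succ]
          ring
        rw [zpow_neg, zpow_natCast, ← div_eq_mul_inv, le_div_iff₀ (by positivity), hu2'] at hP
        rw [pow_succ] at h4
        have hm : (0 : ℝ) < (2 : ℝ) ^ (mm τ (u - 1) (j / 2)) := by positivity
        by_contra hcon
        push Not at hcon
        nlinarith)
    refine h1.trans ?_
    have h2 : 4 * ((4 : ℕ) : ℝ) * T / (w / 4) = 64 * (T / w) := by
      field_simp
      push_cast
      ring
    rw [h2]
    have h3 : 0 ≤ T / w := by positivity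
    push_cast
    linarith

end Pool.Agent.Helper99.RG
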