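import Pool.Agent.Helper20.RG.St1

/-!
# Project RG: elementary properties of the cutoff, the indicators and their averages
-/

set_option autoImplicit false

open MeasureTheory Set Filter Topology
open scoped ENNReal RealInnerProductSpace

namespace Pool.Agent.Helper99.RG

open Pool.Agent.Helper68.LM (Pl)
open Pool.Agent.Helper20.RG

theorem c1_nonneg (t : ℝ) : 0 ≤ c1 t := le_max_left _ _

theorem c1_le_one (t : ℝ) : c1 t ≤ 1 := max_le (by norm_num) (min_le_left _ _)

theorem c1_zero (t : ℝ) (h : 2 ≤ |t|) : c1 t = 0 := by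
  unfold c1
  apply max_eq_left
  exact (min_le_right _ _).trans (by linarith)

theorem c1_cont : Continuous c1 := by
  unfold c1
  fun_prop

theorem m0 : Measurable (fun y : Pl => y 0) := (EuclideanSpace.proj (𝕜 := ℝ) (0 : Fin 2)).continuous.measurable

theorem m1 : Measurable (fun y : Pl => y 1) := (EuclideanSpace.proj (𝕜 := ℝ) (1 : Fin 2)).continuous.measurable

theorem pr_meas (s : ℝ) : Measurable (fun y : Pl => pr s y) := by
  unfold pr
  exact m1.sub (m0.const_mul s)

theorem cut_nonneg (z : Pl) (L₂ : ℝ) (y : Pl) : 0 ≤ cut z L₂ y := mul_nonneg (c1_nonneg _) (c1_nonneg _)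

theorem cut_le_one (z : Pl) (L₂ : ℝ) (y : Pl) : cut z L₂ y ≤ 1 :=
  mul_le_one₀ (c1_le_one _) (c1_nonneg _) (c1_le_one _)

theorem cut_zero (z : Pl) (L₂ : ℝ) (hL : 0 < L₂) (y : Pl) (h : 2 * L₂ < |y 0 - z 0| ∨ 2 * L₂ < |y 1 - z 1|) :
    cut z L₂ y = 0 := by
  unfold cut
  rcases h with h | h
  · rw [c1_zero _ (by rw [abs_div, abs_of_pos hL, le_div_iff₀ hL]; exact h.le), zero_mul]
  · rw [c1_zero ((y 1 - z 1) / L₂) (by rw [abs_div, abs_of_pos hL, le_div_iff₀ hL]; exact h.le), mul_zero]

theorem cut_meas (z : Pl) (L₂ : ℝ) : Measurable (cut z L₂) := by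
  unfold cut
  exact (c1_cont.measurable.comp ((m0.sub_const _).div_const _)).mul
    (c1_cont.measurable.comp ((m1.sub_const _).div_const _))

theorem ind_nonneg (O : Set ℝ) (t : ℝ) : 0 ≤ ind O t := by
  unfold ind
  exact indicator_nonneg (fun _ _ => by norm_num) _

theorem ind_le_one (O : Set ℝ) (t : ℝ) : ind O t ≤ 1 := by
  unfold ind
  exact indicator_le_self' (fun _ _ => by norm_num) _

theorem ind_meas (O : Set ℝ) (hO : MeasurableSet O) : Measurable (ind O) :=
  measurable_const.indicator hO

theorem ofReal_ind (O : Set ℝ) (t : ℝ) : ENNReal.ofReal (ind O t) = O.indicator (fun _ => (1 : ℝ≥0∞)) t := by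
  unfold ind
  by_cases h : t ∈ O
  · rw [indicator_of_mem h, indicator_of_mem h, ENNReal.ofReal_one]
  · rw [indicator_of_notMem h, indicator_of_notMem h, ENNReal.ofReal_zero]

theorem ind_int (O : Set ℝ) (hO : MeasurableSet O) (t a b : ℝ) :
    IntegrableOn (fun r => ind O (t + r)) (Ioc a b) volume := by
  refine Measure.integrableOn_of_bounded (M := 1) (by rw [Real.volume_Ioc]; exact ENNReal.ofReal_ne_top) ?_ ?_
  · exact ((ind_meas O hO).comp (measurable_const_add t)).aestronglyMeasurable
  · refine Filter.Eventually.of_forall (fun r => ?_)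
    rw [Real.norm_eq_abs, abs_of_nonneg (ind_nonneg O _)]
    exact ind_le_one O _

theorem ofReal_bL (O : Set ℝ) (hO : MeasurableSet O) (L t : ℝ) (hL : 0 < L) :
    ENNReal.ofReal (bL L (ind O) t) =
      ENNReal.ofReal (1 / (2 * L)) * ∫⁻ r in Ioc (-L) L, ENNReal.ofReal (ind O (t + r)) := by
  unfold bL
  rw [ENNReal.ofReal_mul (by positivity), intervalIntegral.integral_of_le (by linarith)]
  congr 1
  rw [ofReal_integral_eq_lintegral_ofReal (ind_int O hO t _ _)]
  exact Filter.Eventually.of_forall (fun r => ind_nonneg O _)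

theorem bL_nonneg (O : Set ℝ) (L t : ℝ) (hL : 0 < L) : 0 ≤ bL L (ind O) t := by
  unfold bL
  apply mul_nonneg (by positivity)
  exact intervalIntegral.integral_nonneg (by linarith) (fun r _ => ind_nonneg O _)

theorem bL_le_one (O : Set ℝ) (hO : MeasurableSet O) (L t : ℝ) (hL : 0 < L) : bL L (ind O) t ≤ 1 := by
  unfold bL
  have h1 : ∫ r in (-L)..L, ind O (t + r) ≤ ∫ r in (-L)..L, (1 : ℝ) := by
    apply intervalIntegral.integral_mono_on (by linarith)
    · rw [intervalIntegrable_iff_integrableOn_Ioc_of_le (by linarith)]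
      exact ind_int O hO t _ _
    · simp
    · intro r _
      exact ind_le_one O _
  rw [intervalIntegral.integral_const, smul_eq_mul, mul_one] at h1
  calc 1 / (2 * L) * ∫ r in (-L)..L, ind O (t + r) ≤ 1 / (2 * L) * (L - -L) :=
        mul_le_mul_of_nonneg_left h1 (by positivity)
    _ = 1 := by field_simp; ring

theorem bL_meas (O : Set ℝ) (hO : MeasurableSet O) (L : ℝ) (hL : 0 < L) : Measurable (bL L (ind O)) := by
  have h1 : bL L (ind O) = fun t => (1 / (2 * L)) * ∫ r in Ioc (-L) L, ind O (t + r) := by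
    funext t
    unfold bL
    rw [intervalIntegral.integral_of_le (by linarith)]
  rw [h1]
  apply Measurable.const_mul
  apply StronglyMeasurable.measurable
  apply StronglyMeasurable.integral_prod_right' (f := fun q : ℝ × ℝ => ind O (q.1 + q.2))
  apply Measurable.stronglyMeasurable
  exact (ind_meas O hO).comp (measurable_fst.add measurable_snd)

theorem tl_meas (O : Set ℝ) (hO : MeasurableSet O) (L : ℝ) (hL : 0 < L) : Measurable (tl L (ind O)) := by
  unfold tl
  exact (ind_meas O hO).sub (bL_meas O hO L hL)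

theorem tl_abs_le_one (O : Set ℝ) (hO : MeasurableSet O) (L t : ℝ) (hL : 0 < L) : |tl L (ind O) t| ≤ 1 := by
  unfold tl
  rw [abs_le]
  have h1 := ind_nonneg O t
  have h2 := ind_le_one O t
  have h3 := bL_nonneg O L t hL
  have h4 := bL_le_one O hO L t hL
  constructor <;> linarith

theorem tl_sq_le (O : Set ℝ) (hO : MeasurableSet O) (L t : ℝ) (hL : 0 < L) :
    tl L (ind O) t ^ 2 ≤ ind O t + bL L (ind O) t := by
  have h1 := ind_nonneg O t
  have h2 := ind_le_one O t
  have h3 := bL_nonneg O L t hL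
  have h4 := bL_le_one O hO L t hL
  unfold tl
  nlinarith [mul_nonneg h1 h3, mul_nonneg h1 (sub_nonneg.2 h2), mul_nonneg h3 (sub_nonneg.2 h4)]

/-- the average is bounded by the measure near the interval -/
theorem lint_bL (O : Set ℝ) (hO : MeasurableSet O) (L A B : ℝ) (hL : 0 < L) :
    ∫⁻ t in Icc A B, ENNReal.ofReal (bL L (ind O) t) ≤ volume (O ∩ Icc (A - L) (B + L)) := by
  have h1 : ∀ t, ENNReal.ofReal (bL L (ind O) t) =
      ENNReal.ofReal (1 / (2 * L)) * ∫⁻ r in Ioc (-L) L, ENNReal.ofReal (ind O (t + r)) :=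
    fun t => ofReal_bL O hO L t hL
  have hm : Measurable (fun q : ℝ × ℝ => ENNReal.ofReal (ind O (q.1 + q.2))) :=
    ((ind_meas O hO).comp (measurable_fst.add measurable_snd)).ennreal_ofReal
  rw [lintegral_congr h1, lintegral_const_mul _ hm.lintegral_prod_right', lintegral_lintegral_swap hm.aemeasurable]
  have h2 : ∀ r ∈ Ioc (-L) L, ∫⁻ t in Icc A B, ENNReal.ofReal (ind O (t + r)) ≤
      volume (O ∩ Icc (A - L) (B + L)) := by
    intro r hr
    have hS : MeasurableSet (O ∩ Icc (A - L) (B + L)) := hO.inter measurableSet_Icc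
    calc ∫⁻ t in Icc A B, ENNReal.ofReal (ind O (t + r))
        = ∫⁻ t, (Icc A B).indicator (fun t => ENNReal.ofReal (ind O (t + r))) t := by
          rw [lintegral_indicator measurableSet_Icc]
      _ ≤ ∫⁻ t, (fun x => (O ∩ Icc (A - L) (B + L)).indicator (fun _ => (1 : ℝ≥0∞)) x) (t + r) := by
          apply lintegral_mono
          intro t
          dsimp only
          by_cases ht : t ∈ Icc A B
          · rw [indicator_of_mem ht, ofReal_ind]
            by_cases hO' : t + r ∈ O
            · rw [indicator_of_mem hO', indicator_of_mem]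
              refine ⟨hO', ?_⟩
              rw [mem_Icc] at ht ⊢
              rw [mem_Ioc] at hr
              constructor <;> linarith
            · rw [indicator_of_notMem hO']
              exact zero_le
          · rw [indicator_of_notMem ht]
            exact zero_le
      _ = ∫⁻ t, (O ∩ Icc (A - L) (B + L)).indicator (fun _ => (1 : ℝ≥0∞)) t :=
          lintegral_add_right_eq_self (fun x => (O ∩ Icc (A - L) (B + L)).indicator (fun _ => (1 : ℝ≥0∞)) x) r
      _ = volume (O ∩ Icc (A - L) (B + L)) := by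
          rw [lintegral_indicator_const hS, one_mul]
  calc ENNReal.ofReal (1 / (2 * L)) * ∫⁻ r in Ioc (-L) L, ∫⁻ t in Icc A B, ENNReal.ofReal (ind O (t + r))
      ≤ ENNReal.ofReal (1 / (2 * L)) * ∫⁻ r in Ioc (-L) L, volume (O ∩ Icc (A - L) (B + L)) := by
        apply mul_le_mul' le_rfl
        exact setLIntegral_mono' measurableSet_Ioc h2
    _ = volume (O ∩ Icc (A - L) (B + L)) := by
        rw [setLIntegral_const, Real.volume_Ioc, mul_comm (volume (O ∩ Icc (A - L) (B + L))), ← mul_assoc,
          ← ENNReal.ofReal_mul (by positivity)]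
        have : 1 / (2 * L) * (L - -L) = 1 := by field_simp; ring
        rw [this, ENNReal.ofReal_one, one_mul]

end Pool.Agent.Helper99.RG
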