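import Pool.Agent.Helper20.RG.St2

set_option autoImplicit false

open MeasureTheory Set Filter Topology
open scoped ENNReal RealInnerProductSpace

namespace Pool.Agent.Helper99.RG

open Pool.Agent.Helper68.LM (Pl BB Bd Av HL ft fm DQ)
open Pool.Agent.Helper20.RG

theorem poly_le (k : ℕ) (δ : ℝ) (hδ : 0 < δ) :
    ∃ C : ℝ, 0 < C ∧ ∀ u : ℕ, ((u : ℝ) + 1) ^ k ≤ C * (2 : ℝ) ^ (δ * u) := by
  set r : ℝ := (2 : ℝ) ^ (-δ) with hr
  have hr0 : 0 < r := Real.rpow_pos_of_pos (by norm_num) _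
  have hr1 : r < 1 := Real.rpow_lt_one_of_one_lt_of_neg (by norm_num) (by linarith)
  have h1 := tendsto_pow_const_mul_const_pow_of_abs_lt_one k (r := r) (by rw [abs_of_pos hr0]; exact hr1)
  obtain ⟨B, hB⟩ := h1.bddAbove_range
  refine ⟨(|B| + 1) / r, by positivity, fun e => ?_⟩
  have h2 : ((e + 1 : ℕ) : ℝ) ^ k * r ^ (e + 1) ≤ B := hB ⟨e + 1, rfl⟩
  push_cast at h2
  have h3 : (2 : ℝ) ^ (δ * e) = (r ^ e)⁻¹ := by
    rw [hr, ← Real.rpow_natCast ((2 : ℝ) ^ (-δ)) e, ← Real.rpow_mul (by norm_num), ← Real.rpow_neg (by norm_num)]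
    congr 1
    ring
  rw [h3, div_mul_eq_mul_div, le_div_iff₀ hr0, ← div_eq_mul_inv, le_div_iff₀ (by positivity)]
  calc ((e : ℝ) + 1) ^ k * r * r ^ e = ((e : ℝ) + 1) ^ k * r ^ (e + 1) := by ring
    _ ≤ B := h2
    _ ≤ |B| + 1 := by linarith [le_abs_self B]

/-- every number of (0,1] which is at least 2^(-2u) is bounded by dyadic thresholds -/
theorem dyad (u : ℕ) (lam v : ℝ) (hlam : (2 : ℝ) ^ (-(2 * u : ℤ)) ≤ lam) (hv1 : v ≤ 1) :
    v ≤ lam + ∑ i ∈ (Finset.range (2 * u + 1)).filter (fun i : ℕ => lam / 2 ≤ (1 / 2 : ℝ) ^ (i + 1)),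
      2 * (1 / 2 : ℝ) ^ (i + 1) * (if (1 / 2 : ℝ) ^ (i + 1) ≤ v then 1 else 0) := by
  have hnn : ∀ i : ℕ, 0 ≤ 2 * (1 / 2 : ℝ) ^ (i + 1) * (if (1 / 2 : ℝ) ^ (i + 1) ≤ v then (1 : ℝ) else 0) := by
    intro i
    split_ifs <;> positivity
  have hlam0 : 0 < lam := lt_of_lt_of_le (by positivity) hlam
  rcases lt_or_ge v lam with h | h
  · have := Finset.sum_nonneg (s := (Finset.range (2 * u + 1)).filter (fun i : ℕ => lam / 2 ≤ (1 / 2 : ℝ) ^ (i + 1)))
      (fun i _ => hnn i)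
    linarith
  · have hv : 0 < v := lt_of_lt_of_le hlam0 h
    obtain ⟨n, hn1, hn2⟩ := exists_nat_pow_near_of_lt_one hv hv1 (show (0 : ℝ) < 1 / 2 by norm_num)
      (show (1 / 2 : ℝ) < 1 by norm_num)
    -- (1/2)^(n+1) < v ≤ (1/2)^n
    have hn3 : n < 2 * u + 1 := by
      by_contra hcon
      push Not at hcon
      have h1 : (1 / 2 : ℝ) ^ n ≤ (1 / 2 : ℝ) ^ (2 * u + 1) := pow_le_pow_of_le_one (by norm_num) (by norm_num) hcon
      have h2 : (2 : ℝ) ^ (-(2 * u : ℤ)) = (1 / 2 : ℝ) ^ (2 * u) := by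
        rw [one_div, inv_pow, zpow_neg]
        norm_cast
      have h3 : (1 / 2 : ℝ) ^ (2 * u + 1) < (1 / 2 : ℝ) ^ (2 * u) :=
        pow_lt_pow_right_of_lt_one₀ (by norm_num) (by norm_num) (by omega)
      rw [h2] at hlam
      linarith
    have hmem : n ∈ (Finset.range (2 * u + 1)).filter (fun i : ℕ => lam / 2 ≤ (1 / 2 : ℝ) ^ (i + 1)) := by
      rw [Finset.mem_filter, Finset.mem_range]
      refine ⟨hn3, ?_⟩
      rw [pow_succ]
      linarith
    have h4 := Finset.single_le_sum (f := fun i : ℕ => 2 * (1 / 2 : ℝ) ^ (i + 1) *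
      (if (1 / 2 : ℝ) ^ (i + 1) ≤ v then (1 : ℝ) else 0)) (fun i _ => hnn i) hmem
    simp only [if_pos hn1.le, mul_one] at h4
    have h5 : 2 * (1 / 2 : ℝ) ^ (n + 1) = (1 / 2 : ℝ) ^ n := by rw [pow_succ]; ring
    rw [h5] at h4
    linarith

theorem two_pow_big (u : ℕ) (hu : 20 ≤ u) : 2 * u ^ 4 ≤ 2 ^ u := by
  induction u, hu using Nat.le_induction with
  | base => norm_num
  | succ n hn ih =>
    have h1 : 2 * (n + 1) ^ 4 ≤ 2 * (2 * n ^ 4) := by
      have h2 : (n + 1) ^ 4 = n ^ 4 + 4 * n ^ 3 + 6 * n ^ 2 + 4 * n + 1 := by ring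
      have h3 : n ^ 4 = n * n ^ 3 := by ring
      have h4 : 20 * n ^ 3 ≤ n * n ^ 3 := Nat.mul_le_mul_right _ hn
      have h5 : n ^ 3 = n * n ^ 2 := by ring
      have h6 : 20 * n ^ 2 ≤ n * n ^ 2 := Nat.mul_le_mul_right _ hn
      have h7 : n ^ 2 = n * n := by ring
      have h8 : 20 * n ≤ n * n := Nat.mul_le_mul_right _ hn
      nlinarith
    calc 2 * (n + 1) ^ 4 ≤ 2 * (2 * n ^ 4) := h1
      _ ≤ 2 * 2 ^ n := by omega
      _ = 2 ^ (n + 1) := by ring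

/-- if the mean is large, then many values exceed one of the dyadic thresholds -/
theorem pigeon (u : ℕ) (hu : 20 ≤ u) (Λ : ℝ) (hΛ : (2 : ℝ) ^ (-(u : ℤ)) ≤ Λ) (z : ℕ → ℝ)
    (hz : ∀ j < 2 ^ u, |z j| ≤ 1)
    (h : Λ / (u : ℝ) ^ 4 ≤ |(1 / (2 : ℝ) ^ u) * ∑ j ∈ Finset.range (2 ^ u), z j|) :
    ∃ i ∈ (Finset.range (2 * u + 1)).filter (fun i : ℕ => Λ / (2 * (u : ℝ) ^ 4) / 2 ≤ (1 / 2 : ℝ) ^ (i + 1)),
      (2 : ℝ) ^ u * Λ / ((u : ℝ) ^ 6 * (1 / 2 : ℝ) ^ (i + 1)) ≤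
        ({j : ℕ | j < 2 ^ u ∧ (1 / 2 : ℝ) ^ (i + 1) ≤ |z j|}.ncard : ℝ) := by
  classical
  set N : ℝ := (2 : ℝ) ^ u with hN
  have hN0 : 0 < N := by positivity
  have hu0 : (0 : ℝ) < u := by
    have : 0 < u := by omega
    exact_mod_cast this
  have hu20 : (20 : ℝ) ≤ u := by exact_mod_cast hu
  have hΛ0 : 0 < Λ := lt_of_lt_of_le (by positivity) hΛ
  set lam : ℝ := Λ / (2 * (u : ℝ) ^ 4) with hlam
  have hlam0 : 0 < lam := by positivity
  have hl2 : (2 : ℝ) ^ (-(2 * u : ℤ)) ≤ lam := by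
    rw [hlam, le_div_iff₀ (by positivity)]
    have h1 : (2 : ℝ) ^ (-(2 * u : ℤ)) = (2 : ℝ) ^ (-(u : ℤ)) * (2 : ℝ) ^ (-(u : ℤ)) := by
      rw [← zpow_add₀ (by norm_num)]
      congr 1
      ring
    have h2 : (2 : ℝ) ^ (-(u : ℤ)) * (2 * (u : ℝ) ^ 4) ≤ 1 := by
      rw [zpow_neg, zpow_natCast, inv_mul_le_iff₀ (by positivity), mul_one]
      exact_mod_cast two_pow_big u hu
    rw [h1, mul_assoc]
    calc (2 : ℝ) ^ (-(u : ℤ)) * ((2 : ℝ) ^ (-(u : ℤ)) * (2 * (u : ℝ) ^ 4)) ≤ (2 : ℝ) ^ (-(u : ℤ)) * 1 :=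
          mul_le_mul_of_nonneg_left h2 (by positivity)
      _ ≤ Λ := by rw [mul_one]; exact hΛ
  by_contra hcon
  push Not at hcon
  set I := (Finset.range (2 * u + 1)).filter (fun i : ℕ => lam / 2 ≤ (1 / 2 : ℝ) ^ (i + 1)) with hI
  have h1 : ∑ j ∈ Finset.range (2 ^ u), |z j| ≤ N * lam + ∑ i ∈ I, 2 * (N * Λ / (u : ℝ) ^ 6) := by
    calc ∑ j ∈ Finset.range (2 ^ u), |z j|
        ≤ ∑ j ∈ Finset.range (2 ^ u), (lam + ∑ i ∈ I, 2 * (1 / 2 : ℝ) ^ (i + 1) *
          (if (1 / 2 : ℝ) ^ (i + 1) ≤ |z j| then 1 else 0)) := by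
          apply Finset.sum_le_sum
          intro j hj
          exact dyad u lam |z j| hl2 (hz j (Finset.mem_range.1 hj))
      _ = N * lam + ∑ i ∈ I, 2 * (1 / 2 : ℝ) ^ (i + 1) *
          ({j : ℕ | j < 2 ^ u ∧ (1 / 2 : ℝ) ^ (i + 1) ≤ |z j|}.ncard : ℝ) := by
          rw [Finset.sum_add_distrib, Finset.sum_const, Finset.card_range, nsmul_eq_mul, Finset.sum_comm]
          congr 1
          · rw [hN]; push_cast; ring
          · apply Finset.sum_congr rfl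
            intro i _
            rw [← Finset.mul_sum, Finset.sum_boole]
            congr 2
            have : {j : ℕ | j < 2 ^ u ∧ (1 / 2 : ℝ) ^ (i + 1) ≤ |z j|} =
                ↑((Finset.range (2 ^ u)).filter (fun j => (1 / 2 : ℝ) ^ (i + 1) ≤ |z j|)) := by
              ext j
              simp
            rw [this, Set.ncard_coe_finset]
      _ ≤ _ := by
          apply add_le_add le_rfl
          apply Finset.sum_le_sum
          intro i hi
          have h2 := (hcon i hi).le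
          calc 2 * (1 / 2 : ℝ) ^ (i + 1) * ({j : ℕ | j < 2 ^ u ∧ (1 / 2 : ℝ) ^ (i + 1) ≤ |z j|}.ncard : ℝ)
              ≤ 2 * (1 / 2 : ℝ) ^ (i + 1) * (N * Λ / ((u : ℝ) ^ 6 * (1 / 2 : ℝ) ^ (i + 1))) :=
                mul_le_mul_of_nonneg_left h2 (by positivity)
            _ = 2 * (N * Λ / (u : ℝ) ^ 6) := by
                have : (1 / 2 : ℝ) ^ (i + 1) ≠ 0 := by positivity
                field_simp
  have h2 : N * (Λ / (u : ℝ) ^ 4) ≤ ∑ j ∈ Finset.range (2 ^ u), |z j| := by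
    rw [abs_mul, abs_of_pos (by positivity : (0 : ℝ) < 1 / N), one_div, ← div_eq_inv_mul, le_div_iff₀ hN0] at h
    rw [mul_comm]
    exact h.trans (Finset.abs_sum_le_sum_abs _ _)
  have h3 : (I.card : ℝ) ≤ 2 * u + 1 := by
    have : I.card ≤ 2 * u + 1 := by
      calc I.card ≤ (Finset.range (2 * u + 1)).card := Finset.card_filter_le _ _
        _ = 2 * u + 1 := Finset.card_range _
    exact_mod_cast this
  rw [Finset.sum_const, nsmul_eq_mul] at h1
  have h4 : (I.card : ℝ) * (2 * (N * Λ / (u : ℝ) ^ 6)) ≤ (2 * u + 1) * (2 * (N * Λ / (u : ℝ) ^ 6)) :=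
    mul_le_mul_of_nonneg_right h3 (by positivity)
  have h5 : (2 * (u : ℝ) + 1) * (2 * (N * Λ / (u : ℝ) ^ 6)) < N * (Λ / (u : ℝ) ^ 4) / 2 := by
    have h6 : (2 * (u : ℝ) + 1) * (2 * (N * Λ / (u : ℝ) ^ 6)) = (N * (Λ / (u : ℝ) ^ 4) / 2) *
        (4 * (2 * u + 1) / (u : ℝ) ^ 2) := by
      field_simp
      ring
    rw [h6]
    have h7 : 4 * (2 * (u : ℝ) + 1) / (u : ℝ) ^ 2 < 1 := by
      rw [div_lt_one (by positivity)]
      nlinarith
    have h8 : 0 < N * (Λ / (u : ℝ) ^ 4) / 2 := by positivity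
    nlinarith
  have h6 : N * lam = N * (Λ / (u : ℝ) ^ 4) / 2 := by
    rw [hlam]; field_simp
  linarith

theorem hCU (hCLS : StCLS) : StCU := by
  intro Cf A σ q hCf hA hσ hσq hq
  obtain ⟨u₀, C', ε', hC', hε', hcls⟩ := hCLS Cf A σ q hCf hA hσ hσq hq
  have ha : 0 < (q - σ) / 2 := by linarith
  obtain ⟨C₈, hC₈, hp8⟩ := poly_le 8 ((q - σ) / 4) (by linarith)
  obtain ⟨C₉, hC₉, hp9⟩ := poly_le 1 (ε' / 2) (by linarith)
  set ε : ℝ := min ((q - σ) / 4) (ε' / 2) with hε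
  have hε0 : 0 < ε := lt_min (by linarith) (by linarith)
  refine ⟨max u₀ 20, 2 * Cf ^ 2 * C₈ + 2 * C' * C₉, ε, by positivity, hε0, ?_⟩
  intro u K s g Zf Λ G hu hFam hK hSlo hg hg1 hLoc hΛ hΛ1
  have hu1 : u₀ ≤ u := (le_max_left _ _).trans hu
  have hu2 : 20 ≤ u := (le_max_right _ _).trans hu
  have hu0 : (0 : ℝ) < u := by
    have : 0 < u := by omega
    exact_mod_cast this
  have hu20 : (20 : ℝ) ≤ u := by exact_mod_cast hu2
  have hΛ0 : 0 < Λ := lt_of_lt_of_le (by positivity) hΛ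
  set N : ℝ := (2 : ℝ) ^ u with hN
  have hN0 : 0 < N := by positivity
  set Ig : ℝ≥0∞ := ∫⁻ x, ‖g x‖ₑ ^ 2 with hIg
  set S : ℤ → Pl → ℝ := fun k x => ∑ j ∈ Finset.range (2 ^ u), Zf (om u 0 0) k j x with hS
  have hSm : ∀ k, Measurable (S k) := fun k => by
    apply Continuous.measurable
    exact continuous_finsetSum _ (fun j hj => hFam.cont _ k j (Finset.mem_range.1 hj))
  by_cases hcase : N * Λ < (2 : ℝ) ^ ((q - σ) / 2 * u)
  · -- Chebyshev
    set X : ℝ := N * Λ with hX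
    have hX0 : 0 < X := by positivity
    set c : ℝ := (X / (u : ℝ) ^ 4) ^ 2 with hc
    have hc0 : 0 < c := by positivity
    have h1 : ∀ k : ℤ, volume {x | x ∈ G ∧ Λ / (u : ℝ) ^ 4 ≤
        |(1 / (2 : ℝ) ^ u) * ∑ j ∈ Finset.range (2 ^ u), Zf (om u 0 0) k j x|} ≤
        (∫⁻ x, ‖S k x‖ₑ ^ 2) * ENNReal.ofReal c⁻¹ := by
      intro k
      have h2 : {x | x ∈ G ∧ Λ / (u : ℝ) ^ 4 ≤
        |(1 / (2 : ℝ) ^ u) * ∑ j ∈ Finset.range (2 ^ u), Zf (om u 0 0) k j x|} ⊆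
        {x | ENNReal.ofReal c ≤ ‖S k x‖ₑ ^ 2} := by
        rintro x ⟨-, hx⟩
        change ENNReal.ofReal c ≤ ‖S k x‖ₑ ^ 2
        have h3 : X / (u : ℝ) ^ 4 ≤ |S k x| := by
          rw [← hN, abs_mul, abs_of_pos (by positivity : (0 : ℝ) < 1 / N), one_div, ← div_eq_inv_mul,
            le_div_iff₀ hN0] at hx
          rw [hX]
          calc N * Λ / (u : ℝ) ^ 4 = Λ / (u : ℝ) ^ 4 * N := by ring
            _ ≤ _ := hx
        rw [hc, ENNReal.ofReal_pow (by positivity), ← Real.enorm_abs, Real.enorm_eq_ofReal (abs_nonneg _)]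
        gcongr
      refine (measure_mono h2).trans ?_
      have h4 := meas_ge_le_lintegral_div (μ := (volume : Measure Pl)) (f := fun x => ‖S k x‖ₑ ^ 2)
        (by exact ((hSm k).enorm.pow_const 2).aemeasurable) (ε := ENNReal.ofReal c)
        (by rw [ne_eq, ENNReal.ofReal_eq_zero, not_le]; exact hc0) ENNReal.ofReal_ne_top
      rw [ENNReal.div_eq_inv_mul, ← ENNReal.ofReal_inv_of_pos hc0, mul_comm] at h4
      exact h4
    calc _ ≤ ∑' k : ℤ, (∫⁻ x, ‖S k x‖ₑ ^ 2) * ENNReal.ofReal c⁻¹ := ENNReal.tsum_le_tsum h1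
      _ = (∑' k : ℤ, ∫⁻ x, ‖S k x‖ₑ ^ 2) * ENNReal.ofReal c⁻¹ := ENNReal.tsum_mul_right
      _ ≤ (ENNReal.ofReal (Cf * (K + u + 1)) * Ig) * ENNReal.ofReal c⁻¹ := mul_le_mul' (hFam.tot (om u 0 0)) le_rfl
      _ = ENNReal.ofReal (Cf * (K + u + 1) * c⁻¹) * Ig := by
          rw [ENNReal.ofReal_mul (p := Cf * (K + u + 1)) (by positivity), mul_right_comm]
      _ ≤ _ := by
          apply mul_le_mul' _ le_rfl
          apply ENNReal.ofReal_le_ofReal
          have hNσ : (1 : ℝ) ≤ (2 : ℝ) ^ (σ * u) := Real.one_le_rpow (by norm_num) (by positivity)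
          have e1 : (K : ℝ) + u + 1 ≤ 2 * Cf * (2 : ℝ) ^ (σ * u) := by
            have h5 : (u : ℝ) + 1 ≤ (2 : ℝ) ^ (σ * u) := by
              calc (u : ℝ) + 1 ≤ (2 : ℝ) ^ u := by exact_mod_cast (Nat.lt_two_pow_self (n := u))
                _ = (2 : ℝ) ^ (u : ℝ) := (Real.rpow_natCast _ _).symm
                _ ≤ _ := Real.rpow_le_rpow_of_exponent_le (by norm_num) (by nlinarith)
            have h6 : (2 : ℝ) ^ (σ * u) ≤ Cf * (2 : ℝ) ^ (σ * u) := le_mul_of_one_le_left (by positivity) hCf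
            linarith
          have e2 : c⁻¹ = (u : ℝ) ^ 8 * (X ^ 2)⁻¹ := by
            rw [hc]; field_simp
          have e3 : Λ ^ (-q) = X ^ (-q) * (2 : ℝ) ^ (q * u) := by
            have : Λ = X * (2 : ℝ) ^ (-(u : ℝ)) := by
              rw [hX, Real.rpow_neg (by norm_num), Real.rpow_natCast, ← hN]
              field_simp
            rw [this, Real.mul_rpow hX0.le (by positivity), ← Real.rpow_mul (by norm_num)]
            congr 2
            ring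
          have e4 : X ^ (q - 2) ≤ (2 : ℝ) ^ ((q - σ) / 2 * u) := by
            calc X ^ (q - 2) ≤ ((2 : ℝ) ^ ((q - σ) / 2 * u)) ^ (q - 2) :=
                  Real.rpow_le_rpow hX0.le hcase.le (by linarith)
              _ ≤ ((2 : ℝ) ^ ((q - σ) / 2 * u)) ^ (1 : ℝ) :=
                  Real.rpow_le_rpow_of_exponent_le (Real.one_le_rpow (by norm_num) (by positivity)) (by linarith)
              _ = _ := Real.rpow_one _
          have e5 : (X ^ 2)⁻¹ = X ^ (q - 2) * X ^ (-q) := by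
            rw [← Real.rpow_add hX0, ← Real.rpow_natCast X 2, ← Real.rpow_neg hX0.le]
            congr 1
            push_cast
            ring
          have e6 : (u : ℝ) ^ 8 ≤ C₈ * (2 : ℝ) ^ ((q - σ) / 4 * u) := by
            refine le_trans ?_ (hp8 u)
            gcongr
            linarith
          calc Cf * (K + u + 1) * c⁻¹ ≤ Cf * (2 * Cf * (2 : ℝ) ^ (σ * u)) * c⁻¹ := by
                gcongr
            _ = 2 * Cf ^ 2 * (2 : ℝ) ^ (σ * u) * (u : ℝ) ^ 8 * (X ^ (q - 2) * X ^ (-q)) := by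
                rw [e2, e5]; ring
            _ ≤ 2 * Cf ^ 2 * (2 : ℝ) ^ (σ * u) * (C₈ * (2 : ℝ) ^ ((q - σ) / 4 * u)) *
                ((2 : ℝ) ^ ((q - σ) / 2 * u) * X ^ (-q)) := by
                gcongr
            _ = 2 * Cf ^ 2 * C₈ * ((2 : ℝ) ^ (σ * u) * (2 : ℝ) ^ ((q - σ) / 4 * u) *
                (2 : ℝ) ^ ((q - σ) / 2 * u)) * X ^ (-q) := by ring
            _ = 2 * Cf ^ 2 * C₈ * (2 : ℝ) ^ (-((q - σ) / 4 * u)) * (X ^ (-q) * (2 : ℝ) ^ (q * u)) := by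
                rw [← Real.rpow_add (by norm_num), ← Real.rpow_add (by norm_num)]
                have : (2 : ℝ) ^ (σ * u + (q - σ) / 4 * u + (q - σ) / 2 * u) =
                    (2 : ℝ) ^ (-((q - σ) / 4 * u)) * (2 : ℝ) ^ (q * u) := by
                  rw [← Real.rpow_add (by norm_num)]
                  congr 1
                  ring
                rw [this]
                ring
            _ = 2 * Cf ^ 2 * C₈ * (2 : ℝ) ^ (-((q - σ) / 4 * u)) * Λ ^ (-q) := by rw [e3]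
            _ ≤ (2 * Cf ^ 2 * C₈ + 2 * C' * C₉) * (2 : ℝ) ^ (-(ε * u)) * Λ ^ (-q) := by
                have h7 : (2 : ℝ) ^ (-((q - σ) / 4 * u)) ≤ (2 : ℝ) ^ (-(ε * u)) := by
                  apply Real.rpow_le_rpow_of_exponent_le (by norm_num)
                  have : ε * u ≤ (q - σ) / 4 * u := mul_le_mul_of_nonneg_right (min_le_left _ _) hu0.le
                  linarith
                have h8 : 0 ≤ 2 * C' * C₉ := by positivity
                gcongr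
                linarith
  · -- dyadic thresholds
    push Not at hcase
    set I := (Finset.range (2 * u + 1)).filter (fun i : ℕ => Λ / (2 * (u : ℝ) ^ 4) / 2 ≤ (1 / 2 : ℝ) ^ (i + 1)) with hI
    set m : ℕ → ℝ := fun i => N * Λ / ((u : ℝ) ^ 6 * (1 / 2 : ℝ) ^ (i + 1)) with hm
    have h1 : ∀ i ∈ I, ∑' k : ℤ, volume {x | x ∈ G ∧ m i ≤ ({j : ℕ | j < 2 ^ u ∧
        (1 / 2 : ℝ) ^ (i + 1) ≤ |Zf (om u 0 0) k j x|}.ncard : ℝ)} ≤
        ENNReal.ofReal (C' * (2 : ℝ) ^ (-(ε' * u)) * Λ ^ (-q)) * Ig := by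
      intro i hi
      rw [hI, Finset.mem_filter] at hi
      refine hcls u K s g Zf Λ ((1 / 2 : ℝ) ^ (i + 1)) (m i) G hu1 hFam hK hSlo hg hg1 hLoc ?_
      refine ⟨hΛ0, by linarith, hcase, ?_, ?_, ?_⟩
      · refine le_trans ?_ hi.2
        rw [div_div, div_le_div_iff_of_pos_left hΛ0 (by positivity) (by positivity)]
        have : (u : ℝ) ^ 6 = (u : ℝ) ^ 2 * (u : ℝ) ^ 4 := by ring
        rw [this]
        have h4 : (4 : ℝ) ≤ (u : ℝ) ^ 2 := by nlinarith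
        have h5 : 0 ≤ (u : ℝ) ^ 4 := by positivity
        nlinarith
      · exact pow_le_one₀ (by norm_num) (by norm_num)
      · rw [hm]
        dsimp only
        rw [div_div]
        congr 1
        ring
    calc ∑' k : ℤ, volume {x | x ∈ G ∧ Λ / (u : ℝ) ^ 4 ≤
        |(1 / (2 : ℝ) ^ u) * ∑ j ∈ Finset.range (2 ^ u), Zf (om u 0 0) k j x|}
        ≤ ∑' k : ℤ, ∑ i ∈ I, volume {x | x ∈ G ∧ m i ≤ ({j : ℕ | j < 2 ^ u ∧
        (1 / 2 : ℝ) ^ (i + 1) ≤ |Zf (om u 0 0) k j x|}.ncard : ℝ)} := by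
          apply ENNReal.tsum_le_tsum
          intro k
          have h2 : {x | x ∈ G ∧ Λ / (u : ℝ) ^ 4 ≤
              |(1 / (2 : ℝ) ^ u) * ∑ j ∈ Finset.range (2 ^ u), Zf (om u 0 0) k j x|} ⊆
              ⋃ i ∈ I, {x | x ∈ G ∧ m i ≤ ({j : ℕ | j < 2 ^ u ∧
              (1 / 2 : ℝ) ^ (i + 1) ≤ |Zf (om u 0 0) k j x|}.ncard : ℝ)} := by
            rintro x ⟨hxG, hx⟩
            obtain ⟨i, hi, hi2⟩ := pigeon u hu2 Λ hΛ (fun j => Zf (om u 0 0) k j x)
              (fun j hj => hFam.one _ k j x hj) hx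
            rw [mem_iUnion₂]
            exact ⟨i, hi, hxG, hi2⟩
          exact (measure_mono h2).trans (measure_biUnion_finset_le _ _)
      _ = ∑ i ∈ I, ∑' k : ℤ, volume {x | x ∈ G ∧ m i ≤ ({j : ℕ | j < 2 ^ u ∧
        (1 / 2 : ℝ) ^ (i + 1) ≤ |Zf (om u 0 0) k j x|}.ncard : ℝ)} :=
          Summable.tsum_finsetSum (fun _ _ => ENNReal.summable)
      _ ≤ ∑ i ∈ I, ENNReal.ofReal (C' * (2 : ℝ) ^ (-(ε' * u)) * Λ ^ (-q)) * Ig := Finset.sum_le_sum h1
      _ ≤ _ := by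
          rw [Finset.sum_const, nsmul_eq_mul, ← mul_assoc]
          apply mul_le_mul' _ le_rfl
          rw [← ENNReal.ofReal_natCast, ← ENNReal.ofReal_mul (by positivity)]
          apply ENNReal.ofReal_le_ofReal
          have h3 : (I.card : ℝ) ≤ 2 * (u + 1) := by
            have : I.card ≤ 2 * u + 1 := by
              calc I.card ≤ (Finset.range (2 * u + 1)).card := Finset.card_filter_le _ _
                _ = 2 * u + 1 := Finset.card_range _
            have h4 : (I.card : ℝ) ≤ 2 * u + 1 := by exact_mod_cast this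
            linarith
          have h4 : (u : ℝ) + 1 ≤ C₉ * (2 : ℝ) ^ (ε' / 2 * u) := by
            have := hp9 u
            rwa [pow_one] at this
          calc (I.card : ℝ) * (C' * (2 : ℝ) ^ (-(ε' * u)) * Λ ^ (-q))
              ≤ (2 * (C₉ * (2 : ℝ) ^ (ε' / 2 * u))) * (C' * (2 : ℝ) ^ (-(ε' * u)) * Λ ^ (-q)) := by
                gcongr
                linarith
            _ = 2 * C' * C₉ * ((2 : ℝ) ^ (ε' / 2 * u) * (2 : ℝ) ^ (-(ε' * u))) * Λ ^ (-q) := by ring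
            _ = 2 * C' * C₉ * (2 : ℝ) ^ (-(ε' / 2 * u)) * Λ ^ (-q) := by
                rw [← Real.rpow_add (by norm_num)]
                congr 3
                ring
            _ ≤ (2 * Cf ^ 2 * C₈ + 2 * C' * C₉) * (2 : ℝ) ^ (-(ε * u)) * Λ ^ (-q) := by
                have h7 : (2 : ℝ) ^ (-(ε' / 2 * u)) ≤ (2 : ℝ) ^ (-(ε * u)) := by
                  apply Real.rpow_le_rpow_of_exponent_le (by norm_num)
                  have : ε * u ≤ ε' / 2 * u := mul_le_mul_of_nonneg_right (min_le_right _ _) hu0.le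
                  linarith
                have h8 : 0 ≤ 2 * Cf ^ 2 * C₈ := by positivity
                gcongr
                linarith

end Pool.Agent.Helper99.RG
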