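import Pool.Agent.Helper2.RG.St

/-!
# Project RG, module IM: the decomposition group has the same image
-/

set_option autoImplicit false

open scoped Pointwise NumberField
open NumberField Pool.RG

namespace Pool.Agent.Helper99.RG

section padic

variable (l : ℕ) [Fact l.Prime]

/-- congruence classes modulo `l ^ m` are open -/
private theorem isOpen_class (m : ℕ) (c : ZMod (l ^ m)) :
    IsOpen {x : ℤ_[l] | PadicInt.toZModPow m x = c} := by
  rw [Metric.isOpen_iff]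
  intro x hx
  refine ⟨(l : ℝ) ^ (-m : ℤ), ?_, ?_⟩
  · have : (0 : ℝ) < l := by exact_mod_cast (Fact.out : l.Prime).pos
    positivity
  · intro y hy
    rw [Metric.mem_ball, dist_eq_norm] at hy
    have h1 : y - x ∈ Ideal.span {(l : ℤ_[l]) ^ m} :=
      (PadicInt.norm_le_pow_iff_mem_span_pow _ _).mp hy.le
    rw [← PadicInt.ker_toZModPow, RingHom.mem_ker, map_sub, sub_eq_zero] at h1
    rw [Set.mem_ofPred_eq] at hx ⊢
    rw [h1, hx]

/-- reduction modulo `l ^ m` on `GL_n` -/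
private noncomputable def red (n m : ℕ) : GL (Fin n) ℤ_[l] →* GL (Fin n) (ZMod (l ^ m)) :=
  Matrix.GeneralLinearGroup.map (PadicInt.toZModPow (p := l) m)

private theorem red_eq_one_iff (n m : ℕ) (g : GL (Fin n) ℤ_[l]) :
    red l n m g = 1 ↔ ∀ i j, PadicInt.toZModPow m ((g : Matrix (Fin n) (Fin n) ℤ_[l]) i j) =
      (1 : Matrix (Fin n) (Fin n) (ZMod (l ^ m))) i j := by
  rw [Matrix.GeneralLinearGroup.ext_iff]
  unfold red
  simp only [Matrix.GeneralLinearGroup.map_apply]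
  rfl

private theorem isOpen_red (n m : ℕ) :
    IsOpen {g : GL (Fin n) ℤ_[l] | red l n m g = 1} := by
  have h : {g : GL (Fin n) ℤ_[l] | red l n m g = 1} = ⋂ i, ⋂ j,
      (fun g : GL (Fin n) ℤ_[l] => (g : Matrix (Fin n) (Fin n) ℤ_[l]) i j) ⁻¹'
        {x : ℤ_[l] | PadicInt.toZModPow m x = (1 : Matrix (Fin n) (Fin n) (ZMod (l ^ m))) i j} := by
    ext g
    rw [Set.mem_ofPred_eq, red_eq_one_iff]
    simp only [Set.mem_iInter, Set.mem_preimage, Set.mem_ofPred_eq]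
  rw [h]
  apply isOpen_iInter_of_finite
  intro i
  apply isOpen_iInter_of_finite
  intro j
  apply (isOpen_class l m _).preimage
  have h1 : Continuous (fun g : GL (Fin n) ℤ_[l] => (g : Matrix (Fin n) (Fin n) ℤ_[l])) :=
    Units.continuous_val
  exact h1.matrix_elem i j

private theorem eq_one_of_red (n : ℕ) (g : GL (Fin n) ℤ_[l])
    (h : ∀ m : ℕ, red l n m g = 1) : g = 1 := by
  rw [Matrix.GeneralLinearGroup.ext_iff]
  intro i j
  rw [← PadicInt.ext_of_toZModPow]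
  intro m
  have h1 := (red_eq_one_iff l n m g).mp (h m) i j
  rw [h1]
  simp only [Units.val_one, Matrix.one_apply]
  split_ifs <;> simp

private theorem red_mono (n m : ℕ) (g : GL (Fin n) ℤ_[l])
    (h : red l n (m + 1) g = 1) : red l n m g = 1 := by
  rw [red_eq_one_iff] at h ⊢
  intro i j
  have h1 := h i j
  have h2 : PadicInt.toZModPow m ((g : Matrix (Fin n) (Fin n) ℤ_[l]) i j) =
      ZMod.castHom (pow_dvd_pow l (Nat.le_succ m)) (ZMod (l ^ m))
        (PadicInt.toZModPow (m + 1) ((g : Matrix (Fin n) (Fin n) ℤ_[l]) i j)) := by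
    rw [← PadicInt.zmod_cast_comp_toZModPow m (m + 1) (Nat.le_succ m)]
    rfl
  rw [h2, h1]
  simp only [Matrix.one_apply]
  split_ifs
  · exact map_one _
  · exact map_zero _

/-- `l`-power congruences -/
private theorem red_pow (n m : ℕ) (g : GL (Fin n) ℤ_[l])
    (h : Matrix.GeneralLinearGroup.map (PadicInt.toZMod (p := l)) g = 1) :
    red l n (m + 1) (g ^ (l ^ m)) = 1 := by
  -- `g = 1 + l B`
  have h1 : ∀ i j, ∃ b : ℤ_[l], (g : Matrix (Fin n) (Fin n) ℤ_[l]) i j -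
      (1 : Matrix (Fin n) (Fin n) ℤ_[l]) i j = l * b := by
    intro i j
    have h2 : PadicInt.toZMod ((g : Matrix (Fin n) (Fin n) ℤ_[l]) i j -
      (1 : Matrix (Fin n) (Fin n) ℤ_[l]) i j) = 0 := by
      have h3 := (Matrix.GeneralLinearGroup.ext_iff _ _).mp h i j
      rw [Matrix.GeneralLinearGroup.map_apply] at h3
      rw [map_sub, h3]
      simp only [Units.val_one, Matrix.one_apply]
      split_ifs <;> simp
    rw [← RingHom.mem_ker, PadicInt.ker_toZMod, PadicInt.maximalIdeal_eq_span_p,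
      Ideal.mem_span_singleton'] at h2
    obtain ⟨b, hb⟩ := h2
    exact ⟨b, by rw [← hb, mul_comm]⟩
  choose B hB using h1
  have hg : (g : Matrix (Fin n) (Fin n) ℤ_[l]) = 1 + (l : Matrix (Fin n) (Fin n) ℤ_[l]) * Matrix.of B := by
    ext i j
    have h3 := hB i j
    rw [Matrix.add_apply]
    have h4 : ((l : Matrix (Fin n) (Fin n) ℤ_[l]) * Matrix.of B) i j = l * B i j := by
      rw [← nsmul_eq_mul, Matrix.smul_apply, Matrix.of_apply, nsmul_eq_mul]
    rw [h4, ← h3]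
    ring
  -- polynomial identity
  have hp : ((l : Polynomial ℤ_[l]) ^ (m + 1)) ∣ (1 + (l : Polynomial ℤ_[l]) * Polynomial.X) ^ l ^ m -
      1 ^ l ^ m := by
    apply dvd_sub_pow_of_dvd_sub
    exact ⟨Polynomial.X, by ring⟩
  obtain ⟨q, hq⟩ := hp
  have hq2 := congrArg (Polynomial.aeval (Matrix.of B)) hq
  simp only [map_sub, map_pow, map_add, map_one, map_mul, map_natCast, Polynomial.aeval_X,
    one_pow] at hq2
  rw [← hg] at hq2
  rw [red_eq_one_iff]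
  intro i j
  have h5 : ((g ^ (l ^ m) : GL (Fin n) ℤ_[l]) : Matrix (Fin n) (Fin n) ℤ_[l]) =
      1 + (l : Matrix (Fin n) (Fin n) ℤ_[l]) ^ (m + 1) * Polynomial.aeval (Matrix.of B) q := by
    rw [Units.val_pow_eq_pow_val, ← hq2]
    abel
  rw [h5, Matrix.add_apply]
  have h6 : ((l : Matrix (Fin n) (Fin n) ℤ_[l]) ^ (m + 1) * Polynomial.aeval (Matrix.of B) q) i j =
      (l : ℤ_[l]) ^ (m + 1) * (Polynomial.aeval (Matrix.of B) q) i j := by
    have : (l : Matrix (Fin n) (Fin n) ℤ_[l]) ^ (m + 1) = ((l ^ (m + 1) : ℕ) : Matrix (Fin n) (Fin n) ℤ_[l]) := by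
      push_cast; rfl
    rw [this, ← nsmul_eq_mul, Matrix.smul_apply, nsmul_eq_mul]
    push_cast
    rfl
  rw [h6, map_add, map_mul]
  have h7 : PadicInt.toZModPow (m + 1) ((l : ℤ_[l]) ^ (m + 1)) = 0 := by
    rw [← RingHom.mem_ker, PadicInt.ker_toZModPow]
    exact Ideal.mem_span_singleton_self _
  rw [h7, zero_mul, add_zero]
  simp only [Matrix.one_apply]
  split_ifs <;> simp

end padic

private theorem isGalois_Qb : IsGalois ℚ Qb := by
  have h1 : @IsGalois ℚ _ (AlgebraicClosure ℚ) _ (AlgebraicClosure.instAlgebra ℚ) := by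
    apply @IsSepClosure.isGalois ℚ _ (AlgebraicClosure ℚ) _ (AlgebraicClosure.instAlgebra ℚ)
  have h2 : (AlgebraicClosure.instAlgebra ℚ : Algebra ℚ (AlgebraicClosure ℚ)) =
      DivisionRing.toRatAlgebra := Subsingleton.elim _ _
  rw [h2] at h1
  exact h1

theorem tIm : StIm := by
  intro l _ S F k P0 hk hHeart hDec n ρ hρ
  have := isGalois_Qb
  obtain ⟨hρc, hρi, hρp⟩ := hρ
  have := hk
  -- the subgroups
  let U : ℕ → Subgroup GQ := fun m => ((((red l n m).comp ρ).ker).map (GF k).subtype)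
  have hU : ∀ m (x : GQ), x ∈ U m ↔ ∃ h : x ∈ GF k, red l n m (ρ ⟨x, h⟩) = 1 := by
    intro m x
    simp only [U, Subgroup.mem_map, MonoidHom.mem_ker, MonoidHom.comp_apply]
    constructor
    · rintro ⟨y, hy, rfl⟩
      exact ⟨y.2, hy⟩
    · rintro ⟨h, hx⟩
      exact ⟨⟨x, h⟩, hx, rfl⟩
  have hGFopen : IsOpen (GF k : Set GQ) := k.fixingSubgroup_isOpen
  have hUle : ∀ m, U m ≤ GF k := by
    intro m x hx
    exact ((hU m x).mp hx).1
  have hUopen : ∀ m, IsOpen (U m : Set GQ) := by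
    intro m
    have h1 : (U m : Set GQ) = Subtype.val '' (ρ ⁻¹' {g | red l n m g = 1}) := by
      ext x
      rw [SetLike.mem_coe, hU]
      constructor
      · rintro ⟨h, hx⟩
        exact ⟨⟨x, h⟩, hx, rfl⟩
      · rintro ⟨y, hy, rfl⟩
        exact ⟨y.2, hy⟩
    rw [h1]
    exact hGFopen.isOpenMap_subtype_val _ ((isOpen_red l n m).preimage hρc)
  have hUnorm : ∀ m, ∀ g ∈ GF k, ∀ u ∈ U m, g * u * g⁻¹ ∈ U m := by
    intro m g hg u hu
    rw [hU] at hu ⊢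
    obtain ⟨hu1, hu2⟩ := hu
    refine ⟨mul_mem (mul_mem hg hu1) (inv_mem hg), ?_⟩
    have h1 : (⟨g * u * g⁻¹, mul_mem (mul_mem hg hu1) (inv_mem hg)⟩ : GF k) =
        ⟨g, hg⟩ * ⟨u, hu1⟩ * ⟨g, hg⟩⁻¹ := rfl
    rw [h1, map_mul, map_mul, map_mul, map_mul, hu2, mul_one, map_inv, map_inv, mul_inv_cancel]
  have hUpow : ∀ m, ∀ g ∈ GF k ⊓ GF F, ∃ r : ℕ, g ^ (l ^ r) ∈ U (m + 1) := by
    intro m g hg
    obtain ⟨hg1, hg2⟩ := hg
    obtain ⟨r, hr⟩ := hρp ⟨g, hg1⟩ hg2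
    refine ⟨r + m, ?_⟩
    rw [hU]
    refine ⟨pow_mem hg1 _, ?_⟩
    have h1 : (⟨g ^ (l ^ (r + m)), pow_mem hg1 _⟩ : GF k) = ⟨g, hg1⟩ ^ (l ^ (r + m)) := rfl
    have h2 : (ρ ⟨g, hg1⟩) ^ (l ^ (r + m)) = ((ρ ⟨g, hg1⟩) ^ (l ^ r)) ^ (l ^ m) := by
      rw [← pow_mul, ← pow_add]
    rw [h1, map_pow, h2]
    apply red_pow
    rw [map_pow]
    exact hr
  have hUin : ∀ m, ∀ P, Out l S P → GF k ⊓ Ine P ≤ U m := by
    intro m P hP x hx
    obtain ⟨hx1, hx2⟩ := hx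
    rw [hU]
    exact ⟨hx1, by rw [hρi P hP ⟨x, hx1⟩ hx2, map_one]⟩
  have key : ∀ m, ∀ g ∈ GF k, ∃ d ∈ GF k ⊓ Dec P0, d⁻¹ * g ∈ U (m + 1) := by
    intro m
    exact hHeart (U (m + 1)) (hUle _) (hUopen _) (hUnorm _) (hUpow m) (hUin _)
  intro σ
  -- compactness
  let T : ℕ → Set GQ := fun m => (Dec P0 : Set GQ) ∩ (fun t : GQ => t⁻¹ * σ.1) ⁻¹' (U (m + 1) : Set GQ)
  have hTclosed : ∀ m, IsClosed (T m) := by
    intro m
    apply hDec.inter
    apply IsClosed.preimage (by fun_prop)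
    exact Subgroup.isClosed_of_isOpen _ (hUopen _)
  have hTmono : ∀ m, T (m + 1) ⊆ T m := by
    intro m t ht
    refine ⟨ht.1, ?_⟩
    have h1 := ht.2
    rw [Set.mem_preimage, SetLike.mem_coe, hU] at h1 ⊢
    obtain ⟨h2, h3⟩ := h1
    exact ⟨h2, red_mono l n (m + 1) _ h3⟩
  have hTne : ∀ m, (T m).Nonempty := by
    intro m
    obtain ⟨d, hd, hd2⟩ := key m σ.1 σ.2
    exact ⟨d, hd.2, hd2⟩
  have hTc : IsCompact (T 0) := (hTclosed 0).isCompact
  obtain ⟨τ, hτ⟩ := IsCompact.nonempty_iInter_of_sequence_nonempty_isCompact_isClosed T hTmono hTne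
    hTc hTclosed
  rw [Set.mem_iInter] at hτ
  have hτ0 : τ⁻¹ * σ.1 ∈ GF k := hUle _ (hτ 0).2
  have hτk : τ ∈ GF k := by
    have h1 : τ = σ.1 * (τ⁻¹ * σ.1)⁻¹ := by group
    rw [h1]
    exact mul_mem σ.2 (inv_mem hτ0)
  refine ⟨⟨τ, hτk⟩, (hτ 0).1, ?_⟩
  have h2 : ρ (⟨τ, hτk⟩⁻¹ * σ) = 1 := by
    apply eq_one_of_red
    intro m
    apply red_mono
    have h3 := (hτ m).2
    rw [Set.mem_preimage, SetLike.mem_coe, hU] at h3
    obtain ⟨h4, h5⟩ := h3
    exact h5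
  rw [map_mul, map_inv, inv_mul_eq_one] at h2
  exact h2

end Pool.Agent.Helper99.RG
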