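import Pool.Agent.Helper69.RG.St
import Pool.Agent.Helper22.NL.StZ
import Pool.Agent.Helper22.NL.M_FZ
import Pool.Agent.Helper84.LE.BWT

/-! MP_65faa7, project RG: module Rg. -/

set_option autoImplicit false
set_option linter.unusedSectionVars false

open scoped BigOperators ENNReal
open Pool.LE Pool.NL

namespace Pool.RG
namespace RgM

theorem cv_eq {d : ℕ} {L : Finset (Zd d)} {g v : Zd d → ℝ} (hv : ∀ x, x ∉ L → v x = 0)
    (x : Zd d) : cv g v x = ∑ b ∈ L, g (x - b) * v b := by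
  unfold cv
  rw [← (Equiv.subLeft x).tsum_eq (fun y => g y * v (x - y))]
  rw [tsum_eq_sum (s := L)]
  · refine Finset.sum_congr rfl fun b _ => ?_
    simp only [Equiv.subLeft_apply, sub_sub_cancel]
  · intro b hb
    simp only [Equiv.subLeft_apply, sub_sub_cancel, hv b hb, mul_zero]

theorem sum_sub_le {d : ℕ} {g : Zd d → ℝ} (hg : Summable fun x => |g x|) (L : Finset (Zd d))
    (x : Zd d) : ∑ b ∈ L, |g (x - b)| ≤ ∑' y, |g y| := by
  have h1 : Summable fun b => |g (x - b)| :=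
    ((Equiv.subLeft x).summable_iff (f := fun y => |g y|)).2 hg
  have h2 : ∑' b, |g (x - b)| = ∑' y, |g y| := (Equiv.subLeft x).tsum_eq (fun y => |g y|)
  rw [← h2]
  exact h1.sum_le_tsum L (fun _ _ => abs_nonneg _)

/-- `|ũ| ≤ 4 a` -/
theorem cv_bd {d : ℕ} {L : Finset (Zd d)} {g v : Zd d → ℝ} {a : ℝ}
    (hg : Summable fun x => |g x|) (hg2 : ∑' x, |g x| ≤ 2)
    (hv : ∀ x, x ∉ L → v x = 0) (hva : ∀ x, |v x| ≤ 2 * a) (ha : 0 ≤ a) (x : Zd d) :
    |cv g v x| ≤ 4 * a := by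
  rw [cv_eq hv x]
  calc |∑ b ∈ L, g (x - b) * v b| ≤ ∑ b ∈ L, |g (x - b) * v b| := Finset.abs_sum_le_sum_abs _ _
    _ ≤ ∑ b ∈ L, |g (x - b)| * (2 * a) := by
        refine Finset.sum_le_sum fun b _ => ?_
        rw [abs_mul]
        exact mul_le_mul_of_nonneg_left (hva b) (abs_nonneg _)
    _ = (∑ b ∈ L, |g (x - b)|) * (2 * a) := by rw [Finset.sum_mul]
    _ ≤ 2 * (2 * a) := mul_le_mul_of_nonneg_right ((sum_sub_le hg L x).trans hg2) (by linarith)
    _ = 4 * a := by ring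

open Classical in
/-- pointwise bound for `û - ũ` -/
theorem delta_bd {d : ℕ} {L : Finset (Zd d)} {g u v : Zd d → ℝ} {G : Zd d → Zd d → ℝ} {a : ℝ}
    (hge : ∀ x, g (-x) = g x) (hv : ∀ x, x ∉ L → v x = 0) (hva : ∀ x, |v x| ≤ 2 * a) (ha : 0 ≤ a)
    (hG0 : ∀ x y : Zd d, x ∈ L → y ∉ L → G x y = 0)
    (hu : ∀ x ∈ L, u x = ∑ y ∈ L, G x y * v y) (x : Zd d) :
    |ext L u x - cv g v x| ≤ 2 * a * ((if x ∈ L then ∑ b ∈ L, |G x b - g (b - x)| else 0) +
      ∑ b ∈ L, |G b x - g (x - b)|) := by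
  rw [cv_eq hv x]
  by_cases hx : x ∈ L
  · have e1 : ext L u x - ∑ b ∈ L, g (x - b) * v b = ∑ b ∈ L, (G x b - g (b - x)) * v b := by
      unfold ext
      rw [if_pos hx, hu x hx, ← Finset.sum_sub_distrib]
      refine Finset.sum_congr rfl fun b _ => ?_
      rw [← hge (x - b), neg_sub]
      ring
    rw [e1, if_pos hx]
    calc |∑ b ∈ L, (G x b - g (b - x)) * v b| ≤ ∑ b ∈ L, |(G x b - g (b - x)) * v b| :=
          Finset.abs_sum_le_sum_abs _ _
      _ ≤ ∑ b ∈ L, 2 * a * |G x b - g (b - x)| := by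
          refine Finset.sum_le_sum fun b _ => ?_
          rw [abs_mul, mul_comm]
          exact mul_le_mul_of_nonneg_right (hva b) (abs_nonneg _)
      _ = 2 * a * ∑ b ∈ L, |G x b - g (b - x)| := by rw [Finset.mul_sum]
      _ ≤ _ := by
          refine mul_le_mul_of_nonneg_left ?_ (by linarith)
          exact le_add_of_nonneg_right (Finset.sum_nonneg fun _ _ => abs_nonneg _)
  · have e1 : ext L u x - ∑ b ∈ L, g (x - b) * v b = ∑ b ∈ L, (G b x - g (x - b)) * v b := by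
      unfold ext
      rw [if_neg hx, zero_sub, ← Finset.sum_neg_distrib]
      refine Finset.sum_congr rfl fun b hb => ?_
      rw [hG0 b x hb hx]
      ring
    rw [e1, if_neg hx, zero_add]
    calc |∑ b ∈ L, (G b x - g (x - b)) * v b| ≤ ∑ b ∈ L, |(G b x - g (x - b)) * v b| :=
          Finset.abs_sum_le_sum_abs _ _
      _ ≤ ∑ b ∈ L, 2 * a * |G b x - g (x - b)| := by
          refine Finset.sum_le_sum fun b _ => ?_
          rw [abs_mul, mul_comm]
          exact mul_le_mul_of_nonneg_right (hva b) (abs_nonneg _)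
      _ = 2 * a * ∑ b ∈ L, |G b x - g (x - b)| := by rw [Finset.mul_sum]

/-- summability and sum of `û - ũ` -/
theorem delta_sum {d : ℕ} {L : Finset (Zd d)} {g u v : Zd d → ℝ} {G : Zd d → Zd d → ℝ} {a M : ℝ}
    (hge : ∀ x, g (-x) = g x) (hv : ∀ x, x ∉ L → v x = 0) (hva : ∀ x, |v x| ≤ 2 * a) (ha : 0 ≤ a)
    (hG0 : ∀ x y : Zd d, x ∈ L → y ∉ L → G x y = 0)
    (hu : ∀ x ∈ L, u x = ∑ y ∈ L, G x y * v y)
    (hS : ∀ b ∈ L, Summable fun x : Zd d => |G b x - g (x - b)|)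
    (hM : ∑ b ∈ L, ∑' x : Zd d, |G b x - g (x - b)| ≤ M) :
    (Summable fun x => |ext L u x - cv g v x|) ∧ ∑' x, |ext L u x - cv g v x| ≤ 4 * a * M := by
  classical
  set F1 : Zd d → ℝ := fun x => if x ∈ L then ∑ b ∈ L, |G x b - g (b - x)| else 0 with hF1
  set F2 : Zd d → ℝ := fun x => ∑ b ∈ L, |G b x - g (x - b)| with hF2
  have s1 : Summable F1 := by
    refine summable_of_ne_finset_zero (s := L) fun b hb => ?_
    simp only [hF1]
    rw [if_neg hb]
  have s2 : Summable F2 := summable_sum hS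
  have t1 : ∑' x, F1 x ≤ M := by
    rw [tsum_eq_sum (s := L) (fun b hb => by
      simp only [hF1]
      rw [if_neg hb])]
    refine le_trans (Finset.sum_le_sum fun x hx => ?_) hM
    simp only [hF1]
    rw [if_pos hx]
    exact (hS x hx).sum_le_tsum L (fun _ _ => abs_nonneg _)
  have t2 : ∑' x, F2 x ≤ M := by
    simp only [hF2]
    rw [Summable.tsum_finsetSum hS]
    exact hM
  have s3 : Summable fun x => 2 * a * (F1 x + F2 x) := (s1.add s2).mul_left _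
  have hb := fun x => delta_bd (u := u) hge hv hva ha hG0 hu x
  have s4 : Summable fun x => |ext L u x - cv g v x| :=
    Summable.of_nonneg_of_le (fun _ => abs_nonneg _) hb s3
  refine ⟨s4, ?_⟩
  calc ∑' x, |ext L u x - cv g v x| ≤ ∑' x, 2 * a * (F1 x + F2 x) := s4.tsum_le_tsum hb s3
    _ = 2 * a * (∑' x, F1 x + ∑' x, F2 x) := by
        rw [tsum_mul_left, s1.tsum_add s2]
    _ ≤ 2 * a * (M + M) := mul_le_mul_of_nonneg_left (add_le_add t1 t2) (by linarith)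
    _ = 4 * a * M := by ring

/-- sums over neighbours -/
theorem nb_sum (hBox : StBox) {d : ℕ} (f : Zd d → ℝ) (x : Zd d) :
    ∑ y ∈ nb x, f y = ∑ z ∈ nb (0 : Zd d), f (x + z) := by
  obtain ⟨-, -, -, -, h5, -⟩ := hBox d
  refine Finset.sum_bij' (fun y _ => y - x) (fun z _ => x + z) ?_ ?_ ?_ ?_ ?_
  · intro y hy
    have h := (h5 x y (-x)).1 hy
    rw [neg_add_cancel, neg_add_eq_sub] at h
    exact h
  · intro z hz
    have h := (h5 0 z x).1 hz
    rw [add_zero] at h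
    exact h
  · intro y _
    exact add_sub_cancel x y
  · intro z _
    exact add_sub_cancel_left x z
  · intro y _
    rw [add_sub_cancel]

theorem nb_hasSum (hBox : StBox) {d : ℕ} {f : Zd d → ℝ} {s : ℝ} (hf : HasSum f s) :
    HasSum (fun x => ∑ y ∈ nb x, f y) (2 * d * s) := by
  have hcard := (hBox d).2.2.2.2.2.2.2.2.2.2.2.1 0
  have e : (fun x => ∑ y ∈ nb x, f y) = fun x => ∑ z ∈ nb (0 : Zd d), f (x + z) :=
    funext fun x => nb_sum hBox f x
  rw [e]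
  have h : HasSum (fun x => ∑ z ∈ nb (0 : Zd d), f (x + z)) (∑ z ∈ nb (0 : Zd d), s) :=
    hasSum_sum fun z _ => (Equiv.addRight z).hasSum_iff.2 hf
  rw [Finset.sum_const, hcard, nsmul_eq_mul, Nat.cast_mul, Nat.cast_ofNat] at h
  exact h

/-- the quadratic form of R2 -/
noncomputable def Af {d : ℕ} (p : ℝ) (v w : Zd d → ℝ) : ℝ :=
  ∑' x : Zd d, v x * w x - p * ∑' x : Zd d, ∑ y ∈ nb x, w x * w y

theorem summable_nb (hBox : StBox) {d : ℕ} {w : Zd d → ℝ} {b : ℝ} (hw : Summable fun x => |w x|)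
    (hb : ∀ x, |w x| ≤ b) : Summable fun x => ∑ y ∈ nb x, w x * w y := by
  have h1 := (nb_hasSum hBox hw.hasSum).summable
  refine Summable.of_norm_bounded (h1.mul_left b) fun x => ?_
  rw [Real.norm_eq_abs]
  calc |∑ y ∈ nb x, w x * w y| ≤ ∑ y ∈ nb x, |w x * w y| := Finset.abs_sum_le_sum_abs _ _
    _ ≤ ∑ y ∈ nb x, b * |w y| := by
        refine Finset.sum_le_sum fun y _ => ?_
        rw [abs_mul]
        exact mul_le_mul_of_nonneg_right (hb x) (abs_nonneg _)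
    _ = b * ∑ y ∈ nb x, |w y| := by rw [Finset.mul_sum]

theorem form_cmp (hBox : StBox) {d : ℕ} {p a D : ℝ} {v w₁ w₂ : Zd d → ℝ} (ha : 0 ≤ a)
    (hp : 0 ≤ p) (hpd : p * d ≤ 1) (hva : ∀ x, |v x| ≤ 2 * a)
    (h1 : ∀ x, |w₁ x| ≤ a) (h2 : ∀ x, |w₂ x| ≤ 4 * a) (s1 : Summable fun x => |w₁ x|)
    (s2 : Summable fun x => |w₂ x|) (hs : Summable fun x => |w₁ x - w₂ x|)
    (hD : ∑' x, |w₁ x - w₂ x| ≤ D) : Af p v w₂ ≤ Af p v w₁ + 12 * a * D := by
  have hvw : ∀ w : Zd d → ℝ, (Summable fun x => |w x|) → Summable fun x => v x * w x := by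
    intro w hw
    refine Summable.of_norm_bounded (hw.mul_left (2 * a)) fun x => ?_
    rw [Real.norm_eq_abs, abs_mul]
    exact mul_le_mul_of_nonneg_right (hva x) (abs_nonneg _)
  have hD0 : 0 ≤ D := le_trans (tsum_nonneg fun _ => abs_nonneg _) hD
  -- the linear part
  have e1 : ∑' x, v x * w₁ x - ∑' x, v x * w₂ x = ∑' x, v x * (w₁ x - w₂ x) := by
    rw [← (hvw w₁ s1).tsum_sub (hvw w₂ s2)]
    exact tsum_congr fun x => by ring
  have b1 : |∑' x, v x * (w₁ x - w₂ x)| ≤ 2 * a * D := by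
    have h := tsum_of_norm_bounded (f := fun x => v x * (w₁ x - w₂ x))
      (hs.hasSum.mul_left (2 * a)) (fun x => by
        rw [Real.norm_eq_abs, abs_mul]
        exact mul_le_mul_of_nonneg_right (hva x) (abs_nonneg _))
    rw [Real.norm_eq_abs] at h
    exact h.trans (mul_le_mul_of_nonneg_left hD (by linarith))
  -- the quadratic part
  have e2 : ∑' x, ∑ y ∈ nb x, w₁ x * w₁ y - ∑' x, ∑ y ∈ nb x, w₂ x * w₂ y =
      ∑' x, ∑ y ∈ nb x, ((w₁ x - w₂ x) * w₁ y + w₂ x * (w₁ y - w₂ y)) := by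
    rw [← (summable_nb hBox s1 h1).tsum_sub (summable_nb hBox s2 h2)]
    refine tsum_congr fun x => ?_
    rw [← Finset.sum_sub_distrib]
    exact Finset.sum_congr rfl fun y _ => by ring
  have hcard := (hBox d).2.2.2.2.2.2.2.2.2.2.2.1
  have b2 : |∑' x, ∑ y ∈ nb x, ((w₁ x - w₂ x) * w₁ y + w₂ x * (w₁ y - w₂ y))| ≤
      10 * d * a * D := by
    have hh : HasSum (fun x => 2 * d * a * |w₁ x - w₂ x| + 4 * a * ∑ y ∈ nb x, |w₁ y - w₂ y|)
        (2 * d * a * ∑' x, |w₁ x - w₂ x| + 4 * a * (2 * d * ∑' x, |w₁ x - w₂ x|)) :=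
      (hs.hasSum.mul_left _).add ((nb_hasSum hBox hs.hasSum).mul_left _)
    have h := tsum_of_norm_bounded
      (f := fun x => ∑ y ∈ nb x, ((w₁ x - w₂ x) * w₁ y + w₂ x * (w₁ y - w₂ y))) hh (fun x => by
        rw [Real.norm_eq_abs]
        calc |∑ y ∈ nb x, ((w₁ x - w₂ x) * w₁ y + w₂ x * (w₁ y - w₂ y))|
            ≤ ∑ y ∈ nb x, |(w₁ x - w₂ x) * w₁ y + w₂ x * (w₁ y - w₂ y)| :=
              Finset.abs_sum_le_sum_abs _ _
          _ ≤ ∑ y ∈ nb x, (a * |w₁ x - w₂ x| + 4 * a * |w₁ y - w₂ y|) := by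
              refine Finset.sum_le_sum fun y _ => (abs_add_le _ _).trans (add_le_add ?_ ?_)
              · rw [abs_mul, mul_comm]
                exact mul_le_mul_of_nonneg_right (h1 y) (abs_nonneg _)
              · rw [abs_mul]
                exact mul_le_mul_of_nonneg_right (h2 x) (abs_nonneg _)
          _ = 2 * d * a * |w₁ x - w₂ x| + 4 * a * ∑ y ∈ nb x, |w₁ y - w₂ y| := by
              rw [Finset.sum_add_distrib, Finset.sum_const, hcard x, nsmul_eq_mul, Finset.mul_sum]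
              push_cast
              ring)
    rw [Real.norm_eq_abs] at h
    refine h.trans ?_
    have h3 : 10 * d * a * ∑' x, |w₁ x - w₂ x| ≤ 10 * d * a * D :=
      mul_le_mul_of_nonneg_left hD (by positivity)
    calc 2 * d * a * ∑' x, |w₁ x - w₂ x| + 4 * a * (2 * d * ∑' x, |w₁ x - w₂ x|)
        = 10 * d * a * ∑' x, |w₁ x - w₂ x| := by ring
      _ ≤ _ := h3
  have b3 : p * ∑' x, ∑ y ∈ nb x, ((w₁ x - w₂ x) * w₁ y + w₂ x * (w₁ y - w₂ y)) ≤ 10 * a * D := by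
    calc p * ∑' x, ∑ y ∈ nb x, ((w₁ x - w₂ x) * w₁ y + w₂ x * (w₁ y - w₂ y))
        ≤ p * (10 * d * a * D) := mul_le_mul_of_nonneg_left ((le_abs_self _).trans b2) hp
      _ = (p * d) * (10 * a * D) := by ring
      _ ≤ 1 * (10 * a * D) := mul_le_mul_of_nonneg_right hpd (by positivity)
      _ = 10 * a * D := one_mul _
  have b4 := (abs_le.1 b1).1
  rw [← e1] at b4
  rw [← e2] at b3
  unfold Af
  nlinarith

theorem En_add_bd (hR4 : SR4) {d : ℕ} {w₁ w₂ g v : Zd d → ℝ} {a D Q : ℝ} (ha : 0 ≤ a)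
    (hD0 : 0 ≤ D) (hQ : 0 ≤ Q)
    (hg : Summable fun x => |g x|) (hg2 : ∑' x, |g x| ≤ 2) (hv : FS v)
    (hw : w₂ = cv g v) (hEn : En v ≤ ENNReal.ofReal (8 * d * (Q + 12 * a * D)))
    (h5 : ∀ x, |w₁ x - w₂ x| ≤ 5 * a) (hs : Summable fun x => |w₁ x - w₂ x|)
    (hD : ∑' x, |w₁ x - w₂ x| ≤ D) :
    En w₁ ≤ ENNReal.ofReal (64 * d * Q + 808 * d * a * D) := by
  obtain ⟨r1, r2, r3, -⟩ := hR4 d
  have i1 : En w₂ ≤ ENNReal.ofReal (2 ^ 2) * ENNReal.ofReal (8 * d * (Q + 12 * a * D)) := by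
    rw [hw]
    exact (r3 g v 2 hg hg2 hv).trans (mul_le_mul' le_rfl hEn)
  have i2 : En (fun x => w₁ x - w₂ x) ≤ 4 * d * ENNReal.ofReal (5 * a * D) := by
    refine (r2 _).trans (mul_le_mul' le_rfl ?_)
    calc ∑' x : Zd d, ENNReal.ofReal ((w₁ x - w₂ x) ^ 2)
        ≤ ∑' x : Zd d, ENNReal.ofReal (5 * a * |w₁ x - w₂ x|) := by
          refine ENNReal.tsum_le_tsum fun x => ENNReal.ofReal_le_ofReal ?_
          rw [← sq_abs, pow_two]
          exact mul_le_mul_of_nonneg_right (h5 x) (abs_nonneg _)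
      _ = ENNReal.ofReal (∑' x : Zd d, 5 * a * |w₁ x - w₂ x|) := by
          rw [ENNReal.ofReal_tsum_of_nonneg (fun x => by positivity) (hs.mul_left _)]
      _ ≤ ENNReal.ofReal (5 * a * D) := by
          rw [tsum_mul_left]
          exact ENNReal.ofReal_le_ofReal (mul_le_mul_of_nonneg_left hD (by positivity))
  have e : w₁ = fun x => w₂ x + (w₁ x - w₂ x) := funext fun x => by ring
  have hd : (d : ENNReal) = ENNReal.ofReal (d : ℝ) := (ENNReal.ofReal_natCast d).symm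
  have h2 : (2 : ENNReal) = ENNReal.ofReal 2 := by simp
  have h4 : (4 : ENNReal) = ENNReal.ofReal 4 := by simp
  calc En w₁ = En (fun x => w₂ x + (w₁ x - w₂ x)) := by rw [← e]
    _ ≤ 2 * En w₂ + 2 * En (fun x => w₁ x - w₂ x) := r1 _ _
    _ ≤ 2 * (ENNReal.ofReal (2 ^ 2) * ENNReal.ofReal (8 * d * (Q + 12 * a * D))) +
        2 * (4 * d * ENNReal.ofReal (5 * a * D)) :=
        add_le_add (mul_le_mul' le_rfl i1) (mul_le_mul' le_rfl i2)
    _ = ENNReal.ofReal (64 * d * Q + 808 * d * a * D) := by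
        rw [hd, h2, h4, ← ENNReal.ofReal_mul (by positivity), ← ENNReal.ofReal_mul (by positivity),
          ← ENNReal.ofReal_mul (by positivity), ← ENNReal.ofReal_mul (by positivity),
          ← ENNReal.ofReal_mul (by positivity), ← ENNReal.ofReal_add (by positivity) (by positivity)]
        congr 1
        ring

theorem g_facts {d : ℕ} {p : ℝ} (hCvA : StCvA) (heta : eta d p ≤ ENNReal.ofReal (1 / 200)) :
    (∀ x, gS d p (-x) = gS d p x) ∧ (Summable fun x => |gS d p x|) ∧ ∑' x, |gS d p x| ≤ 2 := by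
  classical
  have hne : eta d p ≠ ⊤ := ne_top_of_le_ne_top ENNReal.ofReal_ne_top heta
  obtain ⟨-, hSQh, hnQh, -, hdl, hSQ, hSym⟩ := hCvA d p hne
  have hQ1 : ∀ x : Zd d, 1 ≤ Qw x := by
    intro x
    have := fz_sq_nonneg x
    unfold Qw
    linarith
  have hle : ∀ (f : Zd d → ℝ) (x : Zd d), |f x| ≤ Qw x * |f x| := fun f x =>
    le_mul_of_one_le_left (abs_nonneg _) (hQ1 x)
  have sg : Summable fun x => |gS d p x| :=
    Summable.of_nonneg_of_le (fun _ => abs_nonneg _) (hle _) hSQ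
  have sh : Summable fun x => |hS d p x| :=
    Summable.of_nonneg_of_le (fun _ => abs_nonneg _) (hle _) hSQh
  have th : ∑' x, |hS d p x| ≤ 1 / 200 := by
    refine (sh.tsum_le_tsum (hle _) hSQh).trans (le_trans hnQh ?_)
    have h := ENNReal.toReal_mono ENNReal.ofReal_ne_top heta
    rwa [ENNReal.toReal_ofReal (by norm_num)] at h
  have s0 : HasSum (fun x : Zd d => if x = 0 then (1 : ℝ) else 0) 1 := hasSum_ite_eq 0 1
  refine ⟨fz_neg hSym, sg, ?_⟩
  calc ∑' x, |gS d p x| ≤ ∑' x, (|hS d p x| + if x = 0 then (1 : ℝ) else 0) := by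
        refine sg.tsum_le_tsum (fun x => ?_) (sh.add s0.summable)
        rw [hdl]
        unfold dl
        refine (abs_add_le _ _).trans (add_le_add le_rfl ?_)
        split_ifs <;> simp
    _ = ∑' x, |hS d p x| + 1 := by rw [sh.tsum_add s0.summable, s0.tsum_eq]
    _ ≤ 2 := by linarith

theorem uW_nonneg {V : Type} [DecidableEq V] {E : Finset (Sym2 V)} {p : ℝ} (h0 : 0 ≤ p)
    (h1 : p ≤ 1) {L : Finset V} {W : Finset V → ℝ} {ψ : V → ℝ} (hW : ∀ S, 0 ≤ W S)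
    (hψ : ∀ x, 0 ≤ ψ x) (x : V) : 0 ≤ uW E p L W ψ x := by
  unfold uW ex Ex
  refine Finset.sum_nonneg fun ω _ => ?_
  rw [smul_eq_mul]
  exact mul_nonneg (wt_nonneg h0 h1 E ω) (mul_nonneg (hW _) (Finset.sum_nonneg fun y _ => hψ y))

theorem Af_ext {d : ℕ} {L : Finset (Zd d)} {p : ℝ} {u v : Zd d → ℝ} {H : Zd d → Zd d → ℝ}
    (hv : ∀ x ∈ L, ∑ y ∈ L, H x y * u y = v x - p * ∑ y ∈ nb x, ext L u y) :
    Af p v (ext L u) = ∑ x ∈ L, ∑ y ∈ L, u x * H x y * u y := by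
  have e0 : ∀ x, x ∉ L → ext L u x = 0 := fun x hx => by
    unfold ext
    rw [if_neg hx]
  have e1 : ∀ x, x ∈ L → ext L u x = u x := fun x hx => by
    unfold ext
    rw [if_pos hx]
  unfold Af
  rw [tsum_eq_sum (s := L) (fun x hx => by rw [e0 x hx, mul_zero]),
    tsum_eq_sum (s := L) (fun x hx => by
      refine Finset.sum_eq_zero fun y _ => ?_
      rw [e0 x hx, zero_mul]), Finset.mul_sum, ← Finset.sum_sub_distrib]
  refine Finset.sum_congr rfl fun x hx => ?_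
  have h : ∑ y ∈ L, u x * H x y * u y = u x * ∑ y ∈ L, H x y * u y := by
    rw [Finset.mul_sum]
    exact Finset.sum_congr rfl fun y _ => by ring
  rw [h, hv x hx, e1 x hx, ← Finset.mul_sum]
  ring

end RgM

open RgM

theorem hRg (hB8 : StB8) (hCvA : StCvA) (hBn : StBn) (hBox : StBox) :
    SR1 → SR2 → SR3 → SR4 → SR5 → StRg := by
  intro hR1 hR2 hR3 hR4 hR5
  obtain ⟨dB, hdB, hB⟩ := hB8
  obtain ⟨d2, hd2, h2⟩ := hR2
  obtain ⟨d3, hd3, h3⟩ := hR3
  obtain ⟨d5, hd5, h5⟩ := hR5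
  refine ⟨dB + d2 + d3 + d5, by omega, ?_⟩
  intro d hd
  have hdpos : (0 : ℝ) < d := by
    have : 0 < d := by omega
    exact_mod_cast this
  obtain ⟨hp0, hpd, hp1, heta, -⟩ := hB d (by omega)
  obtain ⟨hge, hgs, hg2⟩ := g_facts (p := pH d) hCvA heta
  obtain ⟨C₃, hC3, h3'⟩ := h3 d (by omega)
  have h2' := h2 d (by omega)
  have hpd' : pH d * d ≤ 1 := by
    calc pH d * d ≤ 1 / d * d := mul_le_mul_of_nonneg_right hpd hdpos.le
      _ = 1 := by field_simp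
  refine ⟨64 * d + 3232 * d * C₃, by positivity, ?_⟩
  intro n hn ψ W c a hψ hW hu z
  obtain ⟨hFG, -, -, hmem, -⟩ := hBn d n
  obtain ⟨hS, hM⟩ := h3' n hn
  obtain ⟨hG0, H, hH1, -, -, hvex⟩ := h5 d (by omega) n hn
  have h0L : (0 : Zd d) ∈ Bn d n := by
    rw [hmem]
    intro i
    have hn' : (0 : ℤ) < (n : ℤ) := by exact_mod_cast hn
    exact ⟨le_rfl, hn'⟩
  have ha : 0 ≤ a := (abs_nonneg _).trans (hu 0 h0L)
  have hc : 0 ≤ c := (hW ∅).1.trans (hW ∅).2
  have hu0 : ∀ x, 0 ≤ uW (ES (Bn d n)) (pH d) (Bn d n) W ψ x :=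
    uW_nonneg hp0.le (by linarith) (fun S => (hW S).1) (fun x => (hψ x).1)
  have hX := hR1 (Zd d) (Bn d n) (ES (Bn d n)) (2 * d) (pH d) hFG hp0.le (by linarith) W ψ c H hW hH1
  set u : Zd d → ℝ := uW (ES (Bn d n)) (pH d) (Bn d n) W ψ with hudef
  set L : Finset (Zd d) := Bn d n with hL
  obtain ⟨v, hv0, hva, hvu, hvH⟩ := hvex u a hu
  obtain ⟨s1, t1⟩ := delta_sum (u := u) hge hv0 hva ha hG0 hvu hS hM
  have hN : (0 : ℝ) ≤ (n : ℝ) ^ (d - 1) := by positivity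
  set D : ℝ := 4 * a * (C₃ * (n : ℝ) ^ (d - 1)) with hDdef
  have hD0 : 0 ≤ D := by positivity
  have hFSv : FS v := ⟨L, hv0⟩
  obtain ⟨scv, hEn⟩ := h2' v hFSv
  have hcv4 := fun x => cv_bd (v := v) hgs hg2 hv0 hva ha x
  have hua : ∀ x, |ext L u x| ≤ a := by
    intro x
    unfold ext
    split_ifs with hx
    · exact hu x hx
    · rw [abs_zero]
      exact ha
  have su : Summable fun x => |ext L u x| := by
    refine summable_of_ne_finset_zero (s := L) fun x hx => ?_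
    unfold ext
    rw [if_neg hx, abs_zero]
  have h55 : ∀ x, |ext L u x - cv (gS d (pH d)) v x| ≤ 5 * a := by
    intro x
    have i1 := hua x
    have i2 := hcv4 x
    rw [abs_le] at i1 i2 ⊢
    constructor <;> linarith [i1.1, i1.2, i2.1, i2.2]
  set Q : ℝ := c * ∑ x ∈ L, ψ x * u x with hQdef
  have hQ : 0 ≤ Q :=
    mul_nonneg hc (Finset.sum_nonneg fun x _ => mul_nonneg (hψ x).1 (hu0 x))
  have hAf := form_cmp (v := v) hBox ha hp0.le hpd' hva hua hcv4 su scv s1 t1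
  rw [Af_ext hvH] at hAf
  have hEn' : En v ≤ ENNReal.ofReal (8 * d * (Q + 12 * a * D)) := by
    refine hEn.trans (ENNReal.ofReal_le_ofReal (mul_le_mul_of_nonneg_left ?_ (by positivity)))
    exact hAf.trans (by linarith)
  have hEnu : En (ext L u) ≤ ENNReal.ofReal (64 * d * Q + 808 * d * a * D) :=
    En_add_bd hR4 ha hD0 hQ hgs hg2 hFSv rfl hEn' h55 s1 t1
  -- the final sum
  obtain ⟨-, -, -, r4⟩ := hR4 d
  have hfin := (r4 (ext L u) z).trans (mul_le_mul' le_rfl hEnu)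
  rw [← ENNReal.ofReal_mul (by positivity)] at hfin
  have hK : 0 ≤ (∑ i, |(z i : ℝ)|) ^ 2 * (64 * d * Q + 808 * d * a * D) := by positivity
  have hle : ENNReal.ofReal (∑ x ∈ L, (ext L u (x + z) - ext L u x) ^ 2) ≤
      ENNReal.ofReal ((∑ i, |(z i : ℝ)|) ^ 2 * (64 * d * Q + 808 * d * a * D)) := by
    refine le_trans ?_ hfin
    rw [ENNReal.ofReal_sum_of_nonneg (fun x _ => sq_nonneg _)]
    exact ENNReal.sum_le_tsum L
  rw [ENNReal.ofReal_le_ofReal_iff hK] at hle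
  have hlhs : ∑ x ∈ L, (if x + z ∈ L then (u (x + z) - u x) ^ 2 else 0) ≤
      ∑ x ∈ L, (ext L u (x + z) - ext L u x) ^ 2 := by
    refine Finset.sum_le_sum fun x hx => ?_
    split_ifs with hxz
    · unfold ext
      rw [if_pos hx, if_pos hxz]
    · exact sq_nonneg _
  refine hlhs.trans (hle.trans ?_)
  have hz : 0 ≤ (∑ i, |(z i : ℝ)|) ^ 2 := sq_nonneg _
  calc (∑ i, |(z i : ℝ)|) ^ 2 * (64 * d * Q + 808 * d * a * D)
      ≤ (∑ i, |(z i : ℝ)|) ^ 2 *
          ((64 * d + 3232 * d * C₃) * (Q + a ^ 2 * (n : ℝ) ^ (d - 1))) := by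
        refine mul_le_mul_of_nonneg_left ?_ hz
        have e : (64 * d + 3232 * d * C₃) * (Q + a ^ 2 * (n : ℝ) ^ (d - 1)) -
            (64 * d * Q + 808 * d * a * D) =
            3232 * d * C₃ * Q + 64 * d * (a ^ 2 * (n : ℝ) ^ (d - 1)) := by
          rw [hDdef]
          ring
        have e2 : 0 ≤ 3232 * d * C₃ * Q + 64 * d * (a ^ 2 * (n : ℝ) ^ (d - 1)) := by positivity
        linarith
    _ = (64 * d + 3232 * d * C₃) * (∑ i, |(z i : ℝ)|) ^ 2 *
          (Q + a ^ 2 * (n : ℝ) ^ (d - 1)) := by ring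

end Pool.RG
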