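import Pool.Agent.Helper99.RG.Tl

set_option autoImplicit false

open MeasureTheory Set Filter Topology
open scoped ENNReal RealInnerProductSpace

namespace Pool.Agent.Helper99.RG

open Pool.Agent.Helper68.LM (Pl)
open Pool.Agent.Helper20.RG

theorem Om_meas (I : Set (ℤ × ℤ)) : MeasurableSet (Om I) := by
  unfold Om
  exact MeasurableSet.biUnion (Set.to_countable _) (fun a _ => measurableSet_Icc)

theorem hSM3 (hPT : StPT) (hSM1 : StSM1) (hSM2 : StSM2) : StSM3 := by
  classical
  intro N s Er F I z p L L₂ α D m nst Γ hR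
  obtain ⟨hα0, hα1⟩ := hR.al
  obtain ⟨hm1, hmN⟩ := hR.m1
  have h2p : (0 : ℝ) < (2 : ℝ) ^ p := by positivity
  have hL : 0 < L := by
    have h1 : 0 < α * L := by have := hR.sc3; linarith
    exact pos_of_mul_pos_right h1 hα0.le
  have hN : (1000 : ℝ) ≤ N := hm1.trans hmN
  have hNL : 0 < (N : ℝ) * L := by positivity
  have hL₂ : 0 < L₂ := by
    have h1 : 0 < α ^ 2 * L₂ := lt_of_lt_of_le hNL hR.scN
    exact pos_of_mul_pos_right h1 (sq_nonneg _)
  have hLL : 100 * L ≤ L₂ := by
    have h1 := hR.scN
    have h2 : α ^ 2 * L₂ ≤ L₂ := mul_le_of_le_one_left hL₂.le (pow_le_one₀ hα0.le hα1)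
    nlinarith
  set O : ℕ → Set ℝ := fun j => Om (I j) with hO
  have hOm : ∀ j, MeasurableSet (O j) := fun j => Om_meas (I j)
  set H : ℕ → Pl → ℝ := fun j y => tl L (ind (O j)) (pr (s j) y) with hH
  have hHm : ∀ j, Measurable (H j) := fun j => (tl_meas (O j) (hOm j) L hL).comp (pr_meas (s j))
  have hH1 : ∀ j y, |H j y| ≤ 1 := fun j y => tl_abs_le_one (O j) (hOm j) L _ hL
  set v : ℕ → ℝ≥0∞ := fun j => volume (O j ∩ Icc (pr (s j) z - 41 / 10 * L₂) (pr (s j) z + 41 / 10 * L₂)) with hv
  have hvt : ∀ j, v j ≠ ⊤ := by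
    intro j
    apply ne_top_of_le_ne_top _ (measure_mono inter_subset_right)
    rw [Real.volume_Icc]
    exact ENNReal.ofReal_ne_top
  set vr : ℕ → ℝ := fun j => (v j).toReal with hvr
  have hvr0 : ∀ j, 0 ≤ vr j := fun j => ENNReal.toReal_nonneg
  -- integrability
  have hcut : Integrable (fun y : Pl => cut z L₂ y) := by
    have h1 := hPT.2.2.2.2.2.2.2 z (2 * L₂) (by positivity)
    have h2 : Integrable ((Sq z (2 * L₂)).indicator (fun _ => (1 : ℝ))) := by
      rw [integrable_indicator_iff h1.1]
      exact integrableOn_const (hs := by rw [h1.2]; exact ENNReal.ofReal_ne_top) (hC := by simp)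
    refine h2.mono' (cut_meas z L₂).aestronglyMeasurable (Filter.Eventually.of_forall (fun y => ?_))
    rw [Real.norm_eq_abs, abs_of_nonneg (cut_nonneg z L₂ y)]
    by_cases hy : y ∈ Sq z (2 * L₂)
    · rw [indicator_of_mem hy]
      exact cut_le_one z L₂ y
    · rw [indicator_of_notMem hy, cut_zero z L₂ hL₂ y]
      unfold Sq at hy
      rw [Set.mem_ofPred_eq, not_and_or, not_le, not_le] at hy
      exact hy
  have hint : ∀ a b, Integrable (fun y : Pl => cut z L₂ y * (H a y * H b y)) := by
    intro a b
    refine hcut.mono' ((cut_meas z L₂).mul ((hHm a).mul (hHm b))).aestronglyMeasurable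
      (Filter.Eventually.of_forall (fun y => ?_))
    rw [Real.norm_eq_abs, abs_mul, abs_mul, abs_of_nonneg (cut_nonneg z L₂ y)]
    have h1 : |H a y| * |H b y| ≤ 1 := mul_le_one₀ (hH1 a y) (abs_nonneg _) (hH1 b y)
    calc cut z L₂ y * (|H a y| * |H b y|) ≤ cut z L₂ y * 1 := mul_le_mul_of_nonneg_left h1 (cut_nonneg z L₂ y)
      _ = cut z L₂ y := mul_one _
  -- the diagonal
  set Q : ℕ → ℝ := fun a => ∫ y, cut z L₂ y * (H a y * H a y) with hQ
  have hQ0 : ∀ a, 0 ≤ Q a := fun a => integral_nonneg (fun y => mul_nonneg (cut_nonneg z L₂ y) (mul_self_nonneg _))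
  have hQv : ∀ a < N, Q a ≤ 8 * L₂ * vr a := by
    intro a ha
    have h1 := hSM2 (s a) L L₂ z (O a) (hR.slope a ha) hL hLL (hOm a)
    have h2 : Q a = (∫⁻ y : Pl, ENNReal.ofReal (cut z L₂ y * tl L (ind (O a)) (pr (s a) y) ^ 2)).toReal := by
      rw [hQ]
      dsimp only
      rw [integral_eq_lintegral_of_nonneg_ae (Filter.Eventually.of_forall
        (fun y => mul_nonneg (cut_nonneg z L₂ y) (mul_self_nonneg _))) (hint a a).aestronglyMeasurable]
      congr 1
      apply lintegral_congr
      intro y
      rw [pow_two]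
    rw [h2]
    have h3 := ENNReal.toReal_mono (ENNReal.mul_ne_top ENNReal.ofReal_ne_top (hvt a)) h1
    rw [ENNReal.toReal_mul, ENNReal.toReal_ofReal (by positivity)] at h3
    exact h3
  -- off diagonal, all pairs
  have hB1 : ∀ a b, |∫ y, cut z L₂ y * (H a y * H b y)| ≤ (Q a + Q b) / 2 := by
    intro a b
    have h1 : Integrable (fun y => (cut z L₂ y * (H a y * H a y) + cut z L₂ y * (H b y * H b y)) / 2) :=
      ((hint a a).add (hint b b)).div_const 2
    have h2 : |∫ y, cut z L₂ y * (H a y * H b y)| ≤
        ∫ y, (cut z L₂ y * (H a y * H a y) + cut z L₂ y * (H b y * H b y)) / 2 := by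
      rw [← Real.norm_eq_abs]
      apply norm_integral_le_of_norm_le h1
      refine Filter.Eventually.of_forall (fun y => ?_)
      rw [Real.norm_eq_abs, abs_mul, abs_of_nonneg (cut_nonneg z L₂ y), ← mul_add, mul_div_assoc]
      apply mul_le_mul_of_nonneg_left _ (cut_nonneg z L₂ y)
      rw [abs_le]
      constructor <;> nlinarith [sq_nonneg (H a y + H b y), sq_nonneg (H a y - H b y)]
    rw [integral_div, integral_add (hint a a) (hint b b)] at h2
    exact h2
  set K : ℝ := 32 * L / α ^ 2 with hK
  have hK0 : 0 ≤ K := by positivity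
  have hB2 : ∀ a < N, ∀ b < N, α < |s a - s b| → |∫ y, cut z L₂ y * (H a y * H b y)| ≤ K * vr a := by
    intro a ha b hb hab
    exact hSM1 (s a) (s b) α L L₂ z (O a) (O b) (hR.slope a ha) (hR.slope b hb) hα0 hα1 hab hL hLL (hOm a) (hOm b)
  set X : ℕ → ℕ → ℝ := fun a b => if |s a - s b| ≤ α then 1 else 0 with hX
  have hXs : ∀ a b, X a b = X b a := by
    intro a b
    simp only [hX]
    rw [abs_sub_comm]
  have hX0 : ∀ a b, 0 ≤ X a b := fun a b => by simp only [hX]; split_ifs <;> norm_num
  have hXn : ∀ a < N, ∑ b ∈ Finset.range N, X a b ≤ nst := by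
    intro a ha
    have h1 := hR.exo a ha
    have h2 : {j' : ℕ | j' < N ∧ |s a - s j'| ≤ α} = ↑((Finset.range N).filter (fun b => |s a - s b| ≤ α)) := by
      ext b
      simp
    rw [h2, Set.ncard_coe_finset] at h1
    simp only [hX]
    rw [Finset.sum_boole]
    exact h1
  have hN0 : 0 < N := by
    have : (0 : ℝ) < N := by linarith
    exact_mod_cast this
  have hnst : 1 ≤ nst := by
    refine le_trans ?_ (hXn 0 hN0)
    calc (1 : ℝ) = X 0 0 := by simp [hX, hα0.le]
      _ ≤ _ := Finset.single_le_sum (f := fun b => X 0 b) (fun b _ => hX0 0 b) (Finset.mem_range.2 hN0)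
  -- total
  have htot : ∫ y, cut z L₂ y * (Gs N s I y - Gv N s I L y) ^ 2 =
      ∑ a ∈ Finset.range N, ∑ b ∈ Finset.range N, ∫ y, cut z L₂ y * (H a y * H b y) := by
    have h0 : ∑ a ∈ Finset.range N, ∑ b ∈ Finset.range N, ∫ y, cut z L₂ y * (H a y * H b y) =
        ∫ y, ∑ a ∈ Finset.range N, ∑ b ∈ Finset.range N, cut z L₂ y * (H a y * H b y) := by
      rw [integral_finsetSum _ (fun a _ => integrable_finsetSum _ (fun b _ => hint a b))]
      apply Finset.sum_congr rfl
      intro a _
      rw [integral_finsetSum _ (fun b _ => hint a b)]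
    rw [h0]
    congr 1
    funext y
    have h1 : Gs N s I y - Gv N s I L y = ∑ a ∈ Finset.range N, H a y := by
      unfold Gs Gv
      rw [← Finset.sum_sub_distrib]
      rfl
    rw [h1, pow_two, Finset.sum_mul_sum, Finset.mul_sum]
    apply Finset.sum_congr rfl
    intro a _
    rw [Finset.mul_sum]
  have hbound : ∫ y, cut z L₂ y * (Gs N s I y - Gv N s I L y) ^ 2 ≤
      40 * nst * L₂ * ∑ a ∈ Finset.range N, vr a := by
    rw [htot]
    calc ∑ a ∈ Finset.range N, ∑ b ∈ Finset.range N, ∫ y, cut z L₂ y * (H a y * H b y)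
        ≤ ∑ a ∈ Finset.range N, ∑ b ∈ Finset.range N, (X a b * ((Q a + Q b) / 2) + K * vr a) := by
          apply Finset.sum_le_sum
          intro a ha
          apply Finset.sum_le_sum
          intro b hb
          rw [Finset.mem_range] at ha hb
          refine (le_abs_self _).trans ?_
          by_cases hab : |s a - s b| ≤ α
          · have h1 : X a b = 1 := by simp only [hX]; rw [if_pos hab]
            rw [h1, one_mul]
            have h2 := hB1 a b
            have h3 : 0 ≤ K * vr a := mul_nonneg hK0 (hvr0 a)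
            linarith
          · have h1 : X a b = 0 := by simp only [hX]; rw [if_neg hab]
            rw [h1, zero_mul, zero_add]
            exact hB2 a ha b hb (not_le.1 hab)
      _ = ∑ a ∈ Finset.range N, (Q a * ∑ b ∈ Finset.range N, X a b + N * (K * vr a)) := by
          have h1 : ∑ a ∈ Finset.range N, ∑ b ∈ Finset.range N, X a b * (Q b / 2) =
              ∑ a ∈ Finset.range N, ∑ b ∈ Finset.range N, X a b * (Q a / 2) := by
            rw [Finset.sum_comm]
            apply Finset.sum_congr rfl
            intro a _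
            apply Finset.sum_congr rfl
            intro b _
            rw [hXs]
          have h2 : ∑ a ∈ Finset.range N, ∑ b ∈ Finset.range N, (X a b * ((Q a + Q b) / 2) + K * vr a) =
              ∑ a ∈ Finset.range N, ∑ b ∈ Finset.range N, X a b * (Q a / 2) +
              ∑ a ∈ Finset.range N, ∑ b ∈ Finset.range N, X a b * (Q b / 2) +
              ∑ a ∈ Finset.range N, ∑ b ∈ Finset.range N, K * vr a := by
            rw [← Finset.sum_add_distrib, ← Finset.sum_add_distrib]
            apply Finset.sum_congr rfl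
            intro a _
            rw [← Finset.sum_add_distrib, ← Finset.sum_add_distrib]
            apply Finset.sum_congr rfl
            intro b _
            ring
          rw [h2, h1, ← Finset.sum_add_distrib, ← Finset.sum_add_distrib]
          apply Finset.sum_congr rfl
          intro a _
          rw [Finset.sum_const, Finset.card_range, nsmul_eq_mul, ← Finset.sum_mul]
          ring
      _ ≤ ∑ a ∈ Finset.range N, 40 * nst * L₂ * vr a := by
          apply Finset.sum_le_sum
          intro a ha
          rw [Finset.mem_range] at ha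
          have h1 : Q a * ∑ b ∈ Finset.range N, X a b ≤ 8 * L₂ * vr a * nst :=
            mul_le_mul (hQv a ha) (hXn a ha) (Finset.sum_nonneg (fun b _ => hX0 a b))
              (mul_nonneg (by positivity) (hvr0 a))
          have h2 : (N : ℝ) * (K * vr a) ≤ 32 * L₂ * vr a := by
            have h3 : (N : ℝ) * K ≤ 32 * L₂ := by
              rw [hK, ← mul_div_assoc, div_le_iff₀ (by positivity)]
              have := hR.scN
              linarith
            rw [← mul_assoc]
            exact mul_le_mul_of_nonneg_right h3 (hvr0 a)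
          have h4 : 0 ≤ L₂ * vr a := mul_nonneg hL₂.le (hvr0 a)
          nlinarith
      _ = _ := by rw [Finset.mul_sum]
  have hI : Integrable (fun y => cut z L₂ y * (Gs N s I y - Gv N s I L y) ^ 2) := by
    have h1 : (fun y => cut z L₂ y * (Gs N s I y - Gv N s I L y) ^ 2) =
        fun y => ∑ a ∈ Finset.range N, ∑ b ∈ Finset.range N, cut z L₂ y * (H a y * H b y) := by
      funext y
      have h1 : Gs N s I y - Gv N s I L y = ∑ a ∈ Finset.range N, H a y := by
        unfold Gs Gv
        rw [← Finset.sum_sub_distrib]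
        rfl
      rw [h1, pow_two, Finset.sum_mul_sum, Finset.mul_sum]
      apply Finset.sum_congr rfl
      intro a _
      rw [Finset.mul_sum]
    rw [h1]
    exact integrable_finsetSum _ (fun a _ => integrable_finsetSum _ (fun b _ => hint a b))
  rw [← ofReal_integral_eq_lintegral_ofReal hI (Filter.Eventually.of_forall
    (fun y => mul_nonneg (cut_nonneg z L₂ y) (sq_nonneg _)))]
  calc ENNReal.ofReal (∫ y, cut z L₂ y * (Gs N s I y - Gv N s I L y) ^ 2)
      ≤ ENNReal.ofReal (40 * nst * L₂ * ∑ a ∈ Finset.range N, vr a) := ENNReal.ofReal_le_ofReal hbound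
    _ = ENNReal.ofReal (40 * nst * L₂) * ∑ j ∈ Finset.range N, v j := by
        rw [ENNReal.ofReal_mul (by positivity), ENNReal.ofReal_sum_of_nonneg (fun a _ => hvr0 a)]
        congr 1
        apply Finset.sum_congr rfl
        intro a _
        exact ENNReal.ofReal_toReal (hvt a)

end Pool.Agent.Helper99.RG
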